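import Pool.Agent.Q170.KF.Span2

namespace Q170.KF

open Matrix

set_option linter.unusedSectionVars false
set_option linter.unusedVariables false

variable {m n t : ℕ}

/-- the Hilbert space -/
abbrev HS (m n t : ℕ) := EuclideanSpace ℂ (Fin t → Fin m × Fin n)

/-- the vectors belonging to the lower set `T` -/
def gens (t : ℕ) (T : Finset (Fin m × Fin n)) : Set (HS m n t) :=
  {v | ∃ (e : Fin t → Fin m × Fin n) (g : Matrix (Fin m) (Fin m) ℂ)
    (h : Matrix (Fin n) (Fin n) ℂ), Enum e ∧ Finset.univ.image e = T ∧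
      v = WithLp.toLp 2 (slater e (kr g h))}

/-- the isotypic piece of the lower set `T` -/
noncomputable def KT (t : ℕ) (T : Finset (Fin m × Fin n)) : Submodule ℂ (HS m n t) :=
  Submodule.span ℂ (gens t T)

lemma inner_toLp (a b : (Fin t → Fin m × Fin n) → ℂ) :
    inner ℂ (WithLp.toLp 2 a : HS m n t) (WithLp.toLp 2 b) = star a ⬝ᵥ b := by
  rw [EuclideanSpace.inner_eq_star_dotProduct, dotProduct_comm]

lemma enum_sub {e e' : Fin t → Fin m × Fin n} (he : Enum e) (he' : Enum e')
    (h : ∀ k l, (Finset.univ.filter fun b => e' b ≤ (k, l)).card ≤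
      (Finset.univ.filter fun a => e a ≤ (k, l)).card) :
    Finset.univ.image e' ⊆ Finset.univ.image e := by
  classical
  intro x hx
  obtain ⟨b, _, rfl⟩ := Finset.mem_image.1 hx
  have h1 : (Finset.univ.filter fun c => e' c ≤ e' b).image e' = Finset.Iic (e' b) := by
    ext y
    simp only [Finset.mem_image, Finset.mem_filter, Finset.mem_univ, true_and, Finset.mem_Iic]
    constructor
    · rintro ⟨c, hc, rfl⟩; exact hc
    · intro hy
      obtain ⟨c, rfl⟩ := he'.2 b y hy
      exact ⟨c, hy, rfl⟩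
  have h2 : (Finset.univ.filter fun c => e' c ≤ e' b).card = (Finset.Iic (e' b)).card := by
    rw [← h1, Finset.card_image_of_injective _ he'.1]
  have h3 : (Finset.univ.filter fun c => e c ≤ e' b).image e ⊆ Finset.Iic (e' b) := by
    intro y hy
    obtain ⟨c, hc, rfl⟩ := Finset.mem_image.1 hy
    exact Finset.mem_Iic.2 (Finset.mem_filter.1 hc).2
  have h4 : ((Finset.univ.filter fun c => e c ≤ e' b).image e).card =
      (Finset.univ.filter fun c => e c ≤ e' b).card := Finset.card_image_of_injective _ he.1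
  have h5 := h (e' b).1 (e' b).2
  rw [Prod.mk.eta] at h5
  have h6 : (Finset.univ.filter fun c => e c ≤ e' b).image e = Finset.Iic (e' b) :=
    Finset.eq_of_subset_of_card_le h3 (by rw [h4, ← h2]; exact h5)
  have h7 : e' b ∈ Finset.Iic (e' b) := by simp
  rw [← h6] at h7
  obtain ⟨c, _, hc⟩ := Finset.mem_image.1 h7
  exact Finset.mem_image.2 ⟨c, Finset.mem_univ _, hc⟩

lemma kr_star (g : Matrix (Fin m) (Fin m) ℂ) (h : Matrix (Fin n) (Fin n) ℂ) :
    (kr g h)ᴴ = kr gᴴ hᴴ := Matrix.conjTranspose_kronecker g h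

lemma KT_ortho {T T' : Finset (Fin m × Fin n)} (hT : T ≠ T') : KT t T ⟂ KT t T' := by
  classical
  unfold KT
  rw [Submodule.isOrtho_span]
  rintro _ ⟨e, g, h, he, heT, rfl⟩ _ ⟨e', g', h', he', heT', rfl⟩
  rw [inner_toLp, star_slater_slater]
  by_contra hne
  have hne' : slater e' ((kr g h)ᴴ * kr g' h') e ≠ 0 := right_ne_zero_of_mul hne
  rw [kr_star, kr_mul] at hne'
  have hsub : T ⊆ T' := by
    rw [← heT, ← heT']
    exact enum_sub he' he (fun k l => vanish e' he'.1 he'.2 _ _ e hne' k l)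
  have c1 : T.card = t := by
    rw [← heT, Finset.card_image_of_injective _ he.1, Finset.card_univ, Fintype.card_fin]
  have c2 : T'.card = t := by
    rw [← heT', Finset.card_image_of_injective _ he'.1, Finset.card_univ, Fintype.card_fin]
  exact hT (Finset.eq_of_subset_of_card_le hsub (by omega))

/-- number of elements of `T` below `p` -/
def cnt (T : Finset (Fin m × Fin n)) (p : Fin m × Fin n) : ℕ := (T.filter fun x => x ≤ p).card

/-- number of entries of `z` below `p` -/
def NN (p : Fin m × Fin n) (z : Fin t → Fin m × Fin n) : ℕ :=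
  (Finset.univ.filter fun b => z b ≤ p).card

lemma KT_supp {T : Finset (Fin m × Fin n)} {v : HS m n t} (hv : v ∈ KT t T) (p : Fin m × Fin n)
    (z : Fin t → Fin m × Fin n) (hz : v.ofLp z ≠ 0) : NN p z ≤ cnt T p := by
  classical
  by_contra hlt
  apply hz
  clear hz
  unfold KT at hv
  induction hv using Submodule.span_induction with
  | mem v hv =>
    obtain ⟨e, g, h, he, heT, rfl⟩ := hv
    by_contra hne
    apply hlt
    have h1 := vanish e he.1 he.2 g h z hne p.1 p.2
    rw [Prod.mk.eta] at h1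
    refine h1.trans (le_of_eq ?_)
    unfold cnt
    rw [← heT, Finset.filter_image, Finset.card_image_of_injective _ he.1]
  | zero => rfl
  | add u v _ _ hu hv => rw [WithLp.ofLp_add, Pi.add_apply, hu, hv, add_zero]
  | smul c v _ hv => rw [WithLp.ofLp_smul, Pi.smul_apply, hv, smul_zero]

lemma alt_zero : Alt (0 : (Fin t → Fin m × Fin n) → ℂ) := by
  intro σ z
  simp

lemma Alt.add {u v : (Fin t → Fin m × Fin n) → ℂ} (hu : Alt u) (hv : Alt v) : Alt (u + v) := by
  intro σ z
  simp only [Pi.add_apply, hu σ z, hv σ z]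
  ring

lemma Alt.sub {u v : (Fin t → Fin m × Fin n) → ℂ} (hu : Alt u) (hv : Alt v) : Alt (u - v) := by
  intro σ z
  simp only [Pi.sub_apply, hu σ z, hv σ z]
  ring

lemma Alt.smul {u : (Fin t → Fin m × Fin n) → ℂ} (c : ℂ) (hu : Alt u) : Alt (c • u) := by
  intro σ z
  simp only [Pi.smul_apply, hu σ z, smul_eq_mul]
  ring

lemma KT_alt {T : Finset (Fin m × Fin n)} {v : HS m n t} (hv : v ∈ KT t T) : Alt v.ofLp := by
  unfold KT at hv
  induction hv using Submodule.span_induction with
  | mem v hv =>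
    obtain ⟨e, g, h, he, heT, rfl⟩ := hv
    exact slater_alt e _
  | zero => exact alt_zero
  | add u v _ _ hu hv => exact hu.add hv
  | smul c v _ hv => exact hv.smul c

lemma KT_rho {T : Finset (Fin m × Fin n)} {v : HS m n t} (hv : v ∈ KT t T)
    (g : Matrix (Fin m) (Fin m) ℂ) (h : Matrix (Fin n) (Fin n) ℂ) :
    (WithLp.toLp 2 (rho (fun _ => kr g h) *ᵥ v.ofLp) : HS m n t) ∈ KT t T := by
  unfold KT at hv ⊢
  induction hv using Submodule.span_induction with
  | mem v hv =>
    obtain ⟨e, g', h', he, heT, rfl⟩ := hv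
    refine Submodule.subset_span ⟨e, g * g', h * h', he, heT, ?_⟩
    simp only [rho_slater, kr_mul]
  | zero =>
    rw [WithLp.ofLp_zero, Matrix.mulVec_zero, WithLp.toLp_zero]
    exact Submodule.zero_mem _
  | add u v _ _ hu hv =>
    rw [WithLp.ofLp_add, Matrix.mulVec_add, WithLp.toLp_add]
    exact Submodule.add_mem _ hu hv
  | smul c v _ hv =>
    rw [WithLp.ofLp_smul, Matrix.mulVec_smul, WithLp.toLp_smul]
    exact Submodule.smul_mem _ c hv

lemma KT_card {T : Finset (Fin m × Fin n)} {v : HS m n t} (hv : v ∈ KT t T) (hne : v ≠ 0) :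
    ∃ e : Fin t → Fin m × Fin n, Enum e ∧ Finset.univ.image e = T := by
  by_contra hc
  push Not at hc
  apply hne
  have : gens t T = (∅ : Set (HS m n t)) := by
    ext v
    simp only [Set.mem_empty_iff_false, iff_false]
    rintro ⟨e, _, _, he, heT, _⟩
    exact hc e he heT
  unfold KT at hv
  rw [this, Submodule.span_empty] at hv
  exact (Submodule.mem_bot ℂ).1 hv

lemma decomp {ω : HS m n t} (hω : Alt ω.ofLp) :
    ∃ c : Finset (Fin m × Fin n) → HS m n t, (∀ T, c T ∈ KT t T) ∧ ω = ∑ T, c T := by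
  classical
  set L : Submodule ℂ (HS m n t) := ⨆ T ∈ (Finset.univ : Finset (Finset (Fin m × Fin n))), KT t T
    with hL
  obtain ⟨y, hy, w, hw, hyw⟩ := Submodule.exists_add_mem_mem_orthogonal (K := L) ω
  obtain ⟨μ, hμ⟩ := (Submodule.mem_iSup_finset_iff_exists_sum _ y).1 hy
  have hyalt : Alt y.ofLp := by
    rw [← hμ]
    have : ∀ s : Finset (Finset (Fin m × Fin n)), Alt (∑ i ∈ s, (μ i : HS m n t)).ofLp := by
      intro s
      induction s using Finset.induction_on with
      | empty => rw [Finset.sum_empty]; exact alt_zero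
      | insert a s ha ih =>
        rw [Finset.sum_insert ha]
        exact (KT_alt (μ a).2).add ih
    exact this _
  have hwalt : Alt w.ofLp := by
    have : w.ofLp = ω.ofLp - y.ofLp := by
      rw [hyw]; simp
    rw [this]
    exact hω.sub hyalt
  have hgood : Good w.ofLp := by
    refine ⟨hwalt, fun e he g h => ?_⟩
    have h1 := star_slater e (kr gᴴ hᴴ) hwalt
    rw [kr_star, conjTranspose_conjTranspose, conjTranspose_conjTranspose] at h1
    have h2 : (WithLp.toLp 2 (slater e (kr gᴴ hᴴ)) : HS m n t) ∈ L := by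
      refine Submodule.mem_iSup_of_mem (Finset.univ.image e)
        (Submodule.mem_iSup_of_mem (Finset.mem_univ _) ?_)
      exact Submodule.subset_span ⟨e, _, _, he, rfl, rfl⟩
    have h3 : inner ℂ (WithLp.toLp 2 (slater e (kr gᴴ hᴴ)) : HS m n t) w = 0 :=
      (Submodule.mem_orthogonal L w).1 hw _ h2
    have h4 : inner ℂ (WithLp.toLp 2 (slater e (kr gᴴ hᴴ)) : HS m n t) w =
        star (slater e (kr gᴴ hᴴ)) ⬝ᵥ w.ofLp := inner_toLp _ w.ofLp
    rw [h4, h1] at h3
    rcases mul_eq_zero.1 h3 with h5 | h5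
    · exact absurd h5 (by exact_mod_cast Nat.factorial_ne_zero t)
    · exact h5
  have hw0 : w = 0 := by
    have := good_zero hgood
    ext z
    exact congrFun this z
  refine ⟨fun T => (μ T : HS m n t), fun T => (μ T).2, ?_⟩
  rw [hyw, hw0, add_zero, ← hμ]

lemma pyth {ι : Type*} [DecidableEq ι] (s : Finset ι) (c : ι → HS m n t)
    (h : ∀ i ∈ s, ∀ j ∈ s, i ≠ j → inner ℂ (c i) (c j) = 0) :
    ‖∑ i ∈ s, c i‖ ^ 2 = ∑ i ∈ s, ‖c i‖ ^ 2 := by
  induction s using Finset.induction_on with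
  | empty => simp
  | insert a s ha ih =>
    rw [Finset.sum_insert ha, Finset.sum_insert ha]
    have h1 : inner ℂ (c a) (∑ i ∈ s, c i) = 0 := by
      rw [inner_sum]
      refine Finset.sum_eq_zero fun i hi => ?_
      exact h a (Finset.mem_insert_self _ _) i (Finset.mem_insert_of_mem hi)
        (fun hh => ha (hh ▸ hi))
    have h2 := norm_add_sq_eq_norm_sq_add_norm_sq_of_inner_eq_zero (c a) (∑ i ∈ s, c i) h1
    rw [← ih fun i hi j hj => h i (Finset.mem_insert_of_mem hi) j (Finset.mem_insert_of_mem hj)]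
    nlinarith [h2]

lemma layer (c : Finset (Fin m × Fin n) → HS m n t) (hc : ∀ T, c T ∈ KT t T)
    (p : Fin m × Fin n) (s : ℕ) :
    ∑ z with s < NN p z, ‖(∑ T, c T).ofLp z‖ ^ 2 ≤ ∑ T with s < cnt T p, ‖c T‖ ^ 2 := by
  classical
  have h1 : ∀ z ∈ Finset.univ.filter (fun z : Fin t → Fin m × Fin n => s < NN p z),
      (∑ T, c T).ofLp z = (∑ T with s < cnt T p, c T).ofLp z := by
    intro z hz
    have hz' := (Finset.mem_filter.1 hz).2
    rw [← Finset.sum_filter_add_sum_filter_not Finset.univ (fun T => s < cnt T p) c,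
      WithLp.ofLp_add, Pi.add_apply]
    have h2 : (∑ T with ¬ s < cnt T p, c T).ofLp z = 0 := by
      rw [WithLp.ofLp_sum, Finset.sum_apply]
      refine Finset.sum_eq_zero fun T hT => ?_
      have hT' := (Finset.mem_filter.1 hT).2
      by_contra hne
      exact hT' (lt_of_lt_of_le hz' (KT_supp (hc T) p z hne))
    rw [h2, add_zero]
  calc ∑ z with s < NN p z, ‖(∑ T, c T).ofLp z‖ ^ 2
      = ∑ z with s < NN p z, ‖(∑ T with s < cnt T p, c T).ofLp z‖ ^ 2 :=
        Finset.sum_congr rfl fun z hz => by rw [h1 z hz]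
    _ ≤ ∑ z, ‖(∑ T with s < cnt T p, c T).ofLp z‖ ^ 2 :=
        Finset.sum_le_sum_of_subset_of_nonneg (Finset.subset_univ _) fun z _ _ => by positivity
    _ = ‖∑ T with s < cnt T p, c T‖ ^ 2 := (EuclideanSpace.norm_sq_eq _).symm
    _ = ∑ T with s < cnt T p, ‖c T‖ ^ 2 := by
        refine pyth _ c fun T _ T' _ hne => ?_
        exact (Submodule.isOrtho_iff_inner_eq.1 (KT_ortho hne)) _ (hc T) _ (hc T')

lemma energy1 (c : Finset (Fin m × Fin n) → HS m n t) (hc : ∀ T, c T ∈ KT t T)
    (p : Fin m × Fin n) :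
    ∑ z, ‖(∑ T, c T).ofLp z‖ ^ 2 * (NN p z : ℝ) ≤ ∑ T, ‖c T‖ ^ 2 * (cnt T p : ℝ) := by
  classical
  have hN : ∀ z : Fin t → Fin m × Fin n, (NN p z : ℝ) =
      ∑ s ∈ Finset.range t, if s < NN p z then (1 : ℝ) else 0 := by
    intro z
    rw [← Finset.sum_filter, Finset.sum_const, nsmul_eq_mul, mul_one]
    congr 1
    have hle : NN p z ≤ t := by
      unfold NN
      exact (Finset.card_filter_le _ _).trans (by simp)
    have : (Finset.range t).filter (fun s => s < NN p z) = Finset.range (NN p z) := by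
      ext s; simp only [Finset.mem_filter, Finset.mem_range]; omega
    rw [this, Finset.card_range]
  have hC : ∀ T : Finset (Fin m × Fin n),
      ∑ s ∈ Finset.range t, (if s < cnt T p then (1 : ℝ) else 0) ≤ (cnt T p : ℝ) := by
    intro T
    rw [← Finset.sum_filter, Finset.sum_const, nsmul_eq_mul, mul_one]
    have : (Finset.range t).filter (fun s => s < cnt T p) ⊆ Finset.range (cnt T p) := by
      intro s; simp only [Finset.mem_filter, Finset.mem_range]; omega
    have := Finset.card_le_card this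
    rw [Finset.card_range] at this
    exact_mod_cast this
  calc ∑ z, ‖(∑ T, c T).ofLp z‖ ^ 2 * (NN p z : ℝ)
      = ∑ s ∈ Finset.range t, ∑ z with s < NN p z, ‖(∑ T, c T).ofLp z‖ ^ 2 := by
        simp only [Finset.sum_filter]
        rw [Finset.sum_comm]
        refine Finset.sum_congr rfl fun z _ => ?_
        rw [hN z, Finset.mul_sum]
        refine Finset.sum_congr rfl fun s _ => ?_
        split_ifs <;> simp
    _ ≤ ∑ s ∈ Finset.range t, ∑ T with s < cnt T p, ‖c T‖ ^ 2 :=
        Finset.sum_le_sum fun s _ => layer c hc p s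
    _ = ∑ T, ‖c T‖ ^ 2 * ∑ s ∈ Finset.range t, (if s < cnt T p then (1 : ℝ) else 0) := by
        simp only [Finset.sum_filter]
        rw [Finset.sum_comm]
        refine Finset.sum_congr rfl fun T _ => ?_
        rw [Finset.mul_sum]
        refine Finset.sum_congr rfl fun s _ => ?_
        split_ifs <;> simp
    _ ≤ ∑ T, ‖c T‖ ^ 2 * (cnt T p : ℝ) :=
        Finset.sum_le_sum fun T _ => mul_le_mul_of_nonneg_left (hC T) (by positivity)

lemma abel_decomp {N : ℕ} (a : Fin N → ℝ) (ha : Antitone a) (h0 : ∀ i, 0 ≤ a i) :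
    ∃ α : Fin N → ℝ, (∀ k, 0 ≤ α k) ∧ ∀ i, a i = ∑ k, if i ≤ k then α k else 0 := by
  classical
  set b : ℕ → ℝ := fun j => if h : j < N then a ⟨j, h⟩ else 0 with hb
  refine ⟨fun k => b k - b (k + 1), fun k => ?_, fun i => ?_⟩
  · have h1 : b k = a k := by simp [hb]
    change 0 ≤ b k - b (k + 1)
    rw [h1]
    by_cases h2 : (k : ℕ) + 1 < N
    · have h3 : b (k + 1) = a ⟨k + 1, h2⟩ := by simp [hb, h2]
      rw [h3, sub_nonneg]
      exact ha (by rw [Fin.le_def]; simp)
    · have h3 : b (k + 1) = 0 := by simp [hb, h2]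
      rw [h3, sub_zero]
      exact h0 k
  · have key : ∀ M, (i : ℕ) ≤ M →
        ∑ k ∈ Finset.range M, (if (i : ℕ) ≤ k then b k - b (k + 1) else 0) = b i - b M := by
      intro M hM
      induction M, hM using Nat.le_induction with
      | base =>
        rw [sub_self]
        refine Finset.sum_eq_zero fun k hk => ?_
        rw [Finset.mem_range] at hk
        rw [if_neg (by omega)]
      | succ M hM ih =>
        rw [Finset.sum_range_succ, ih, if_pos hM]
        ring
    have h1 := key N i.2.le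
    rw [← Fin.sum_univ_eq_sum_range (fun k => if (i : ℕ) ≤ k then b k - b (k + 1) else 0)] at h1
    have h2 : b i = a i := by simp [hb]
    have h3 : b N = 0 := by simp [hb]
    rw [h2, h3, sub_zero] at h1
    rw [← h1]
    refine Finset.sum_congr rfl fun k _ => ?_
    simp only [Fin.le_def]

lemma prod_expand (α : Fin m → ℝ) (β : Fin n → ℝ) {ι : Type*} (s : Finset ι)
    (z : ι → Fin m × Fin n) :
    ∑ i ∈ s, (∑ k, if (z i).1 ≤ k then α k else 0) * (∑ l, if (z i).2 ≤ l then β l else 0) =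
      ∑ p : Fin m × Fin n, α p.1 * β p.2 * ((s.filter fun i => z i ≤ p).card : ℝ) := by
  classical
  have h1 : ∀ p : Fin m × Fin n, ((s.filter fun i => z i ≤ p).card : ℝ) =
      ∑ i ∈ s, if z i ≤ p then (1 : ℝ) else 0 := by
    intro p
    rw [← Finset.sum_filter, Finset.sum_const, nsmul_eq_mul, mul_one]
  have h4 : ∑ p : Fin m × Fin n, α p.1 * β p.2 * ((s.filter fun i => z i ≤ p).card : ℝ) =
      ∑ i ∈ s, ∑ p : Fin m × Fin n, α p.1 * β p.2 * (if z i ≤ p then (1 : ℝ) else 0) := by
    rw [Finset.sum_comm]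
    refine Finset.sum_congr rfl fun p _ => ?_
    rw [h1 p, Finset.mul_sum]
  rw [h4]
  refine Finset.sum_congr rfl fun i _ => ?_
  rw [Finset.sum_mul_sum, Fintype.sum_prod_type]
  refine Finset.sum_congr rfl fun k _ => Finset.sum_congr rfl fun l _ => ?_
  by_cases h2 : (z i).1 ≤ k <;> by_cases h3 : (z i).2 ≤ l <;> simp [h2, h3, Prod.le_def]

lemma energy2 (a : Fin m → ℝ) (b : Fin n → ℝ) (ha : Antitone a) (hb : Antitone b)
    (ha0 : ∀ i, 0 ≤ a i) (hb0 : ∀ i, 0 ≤ b i)
    (c : Finset (Fin m × Fin n) → HS m n t) (hc : ∀ T, c T ∈ KT t T) :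
    ∑ z, ‖(∑ T, c T).ofLp z‖ ^ 2 * ∑ s, a (z s).1 * b (z s).2 ≤
      ∑ T, ‖c T‖ ^ 2 * ∑ x ∈ T, a x.1 * b x.2 := by
  classical
  obtain ⟨α, hα, hα'⟩ := abel_decomp a ha ha0
  obtain ⟨β, hβ, hβ'⟩ := abel_decomp b hb hb0
  have h1 : ∀ z : Fin t → Fin m × Fin n, ∑ s, a (z s).1 * b (z s).2 =
      ∑ p : Fin m × Fin n, α p.1 * β p.2 * (NN p z : ℝ) := by
    intro z
    refine Eq.trans ?_ (prod_expand α β Finset.univ z)
    exact Finset.sum_congr rfl fun s _ => by rw [← hα', ← hβ']
  have h2 : ∀ T : Finset (Fin m × Fin n), ∑ x ∈ T, a x.1 * b x.2 =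
      ∑ p : Fin m × Fin n, α p.1 * β p.2 * (cnt T p : ℝ) := by
    intro T
    refine Eq.trans ?_ (prod_expand α β T (fun x => x))
    exact Finset.sum_congr rfl fun s _ => by rw [← hα', ← hβ']
  simp only [h1, h2, Finset.mul_sum]
  rw [Finset.sum_comm, Finset.sum_comm (s := Finset.univ) (t := Finset.univ)
    (f := fun (T : Finset (Fin m × Fin n)) (p : Fin m × Fin n) =>
      ‖c T‖ ^ 2 * (α p.1 * β p.2 * (cnt T p : ℝ)))]
  refine Finset.sum_le_sum fun p _ => ?_
  have h3 := mul_le_mul_of_nonneg_left (energy1 c hc p) (mul_nonneg (hα p.1) (hβ p.2))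
  rw [Finset.mul_sum, Finset.mul_sum] at h3
  refine le_trans (le_of_eq ?_) (h3.trans (le_of_eq ?_))
  · exact Finset.sum_congr rfl fun z _ => by ring
  · exact Finset.sum_congr rfl fun z _ => by ring

end Q170.KF
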