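import Pool.Agent.Q170.KF.Energy

namespace Q170.KF

open Matrix
open scoped ComplexOrder

set_option linter.unusedSectionVars false
set_option linter.unusedVariables false

/-- the sum of the first `t` entries of a list of real numbers (all of them if `t ≥ N`) -/
noncomputable def psum {N : ℕ} (lam : Fin N → ℝ) (t : ℕ) : ℝ :=
  ∑ i ∈ Finset.univ.filter (fun i : Fin N => (i : ℕ) < t), lam i

section general
variable {t : ℕ} {κ : Type*} [Fintype κ] [DecidableEq κ]

/-- squared norm -/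
noncomputable def nsq {J : Type*} [Fintype J] (ω : J → ℂ) : ℝ := ∑ z, ‖ω z‖ ^ 2

lemma star_self {J : Type*} [Fintype J] (ω : J → ℂ) : star ω ⬝ᵥ ω = (nsq ω : ℂ) := by
  unfold nsq dotProduct
  push_cast
  refine Finset.sum_congr rfl fun z _ => ?_
  rw [Pi.star_apply, ← Complex.conj_mul']
  rfl

lemma star_diag {J : Type*} [Fintype J] [DecidableEq J] (ω : J → ℂ) (d : J → ℝ) :
    star ω ⬝ᵥ (Matrix.diagonal (fun z => (d z : ℂ)) *ᵥ ω) =
      ((∑ z, ‖ω z‖ ^ 2 * d z : ℝ) : ℂ) := by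
  unfold dotProduct
  push_cast
  refine Finset.sum_congr rfl fun z _ => ?_
  rw [Pi.star_apply, Matrix.mulVec_diagonal, ← Complex.conj_mul']
  change (starRingEnd ℂ) (ω z) * _ = _
  ring

lemma rho_nsq {W W' : Matrix κ κ ℂ} (h : W'ᴴ * W' = 1) (ω : (Fin t → κ) → ℂ) :
    nsq (rho (fun _ => W') *ᵥ ω) = nsq ω := by
  have h1 := star_self (rho (fun _ : Fin t => W') *ᵥ ω)
  rw [Matrix.star_mulVec, ← Matrix.dotProduct_mulVec, Matrix.mulVec_mulVec, rho_star, rho_mul,
    h, rho_one, Matrix.one_mulVec, star_self] at h1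
  exact_mod_cast h1.symm

lemma energy_eq {W : Matrix κ κ ℂ} (hW : W * Wᴴ = 1) (lam : κ → ℝ) (ω : (Fin t → κ) → ℂ) :
    star ω ⬝ᵥ (D (W * Matrix.diagonal (fun i => (lam i : ℂ)) * Wᴴ) *ᵥ ω) =
      ((∑ z, ‖(rho (fun _ => Wᴴ) *ᵥ ω) z‖ ^ 2 * ∑ b, lam (z b) : ℝ) : ℂ) := by
  rw [← star_diag]
  rw [D_conj _ _ _ hW, D_diag, Matrix.star_mulVec, ← Matrix.dotProduct_mulVec,
    Matrix.mulVec_mulVec, Matrix.mulVec_mulVec, rho_star]
  simp only [conjTranspose_conjTranspose, Complex.ofReal_sum]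

lemma spectral {A : Matrix κ κ ℂ} (hA : A.IsHermitian) :
    ∃ W : Matrix κ κ ℂ, Wᴴ * W = 1 ∧ W * Wᴴ = 1 ∧
      A = W * Matrix.diagonal (fun i => ((hA.eigenvalues i : ℝ) : ℂ)) * Wᴴ := by
  refine ⟨hA.eigenvectorUnitary, ?_, ?_, ?_⟩
  · exact Unitary.coe_star_mul_self hA.eigenvectorUnitary
  · exact Unitary.coe_mul_star_self hA.eigenvectorUnitary
  · have h := hA.spectral_theorem
    rw [Unitary.conjStarAlgAut_apply] at h
    exact h

lemma slater_one_ne {e z : Fin t → κ} (h : slater e 1 z ≠ 0) :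
    ∃ σ : Equiv.Perm (Fin t), ∀ b, z b = e (σ b) := by
  rw [slater_eq] at h
  obtain ⟨σ, _, hσ⟩ := Finset.exists_ne_zero_of_sum_ne_zero h
  refine ⟨σ, fun b => ?_⟩
  by_contra hb
  apply hσ
  have h0 : ∏ b, (1 : Matrix κ κ ℂ) (z b) (e (σ b)) = 0 :=
    Finset.prod_eq_zero (i := b) (Finset.mem_univ b) (Matrix.one_apply_ne hb)
  rw [h0, mul_zero]

lemma nsq_slater_one {e : Fin t → κ} (he : Function.Injective e) : 0 < nsq (slater e 1) := by
  have h1 := star_slater_one e (slater_alt e 1)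
  rw [star_self] at h1
  have h2 : slater e 1 e = 1 := by
    unfold slater
    have : (Matrix.of fun a b => (1 : Matrix κ κ ℂ) (e b) (e a)) = (1 : Matrix (Fin t) (Fin t) ℂ) := by
      ext a b
      by_cases hab : a = b
      · subst hab; simp
      · rw [Matrix.one_apply_ne hab]
        exact Matrix.one_apply_ne fun h => hab (he h).symm
    rw [this, Matrix.det_one]
  rw [h2, mul_one] at h1
  have h3 : nsq (slater e 1) = (t.factorial : ℝ) := by exact_mod_cast h1
  rw [h3]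
  exact_mod_cast t.factorial_pos

lemma energy_slater (e : Fin t → κ) (lam : κ → ℝ) :
    ∑ z, ‖slater e 1 z‖ ^ 2 * ∑ b, lam (z b) = (∑ b, lam (e b)) * nsq (slater e 1) := by
  unfold nsq
  rw [Finset.mul_sum]
  refine Finset.sum_congr rfl fun z _ => ?_
  by_cases hz : slater e 1 z = 0
  · rw [hz]; simp
  · obtain ⟨σ, hσ⟩ := slater_one_ne hz
    have : ∑ b, lam (z b) = ∑ b, lam (e b) := by
      rw [Finset.sum_congr rfl fun b _ => by rw [hσ b]]
      exact Equiv.sum_comp σ fun b => lam (e b)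
    rw [this]; ring

lemma strictMono_le {N : ℕ} (g : Fin t → Fin N) (hg : StrictMono g) :
    ∀ a : ℕ, ∀ h : a < t, a ≤ g ⟨a, h⟩ := by
  intro a
  induction a with
  | zero => intro h; exact Nat.zero_le _
  | succ a ih =>
    intro h
    have h1 := ih (by omega)
    have h2 : g ⟨a, by omega⟩ < g ⟨a + 1, h⟩ := hg (by rw [Fin.lt_def]; simp)
    rw [Fin.lt_def] at h2
    omega

lemma sum_top {N : ℕ} (ht : t ≤ N) (lam : Fin N → ℝ) :
    ∑ a : Fin t, lam (Fin.castLE ht a) = psum lam t := by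
  have h1 : Finset.univ.filter (fun i : Fin N => (i : ℕ) < t) =
      Finset.univ.image (Fin.castLE ht) := by
    ext i
    simp only [Finset.mem_filter, Finset.mem_univ, true_and, Finset.mem_image]
    constructor
    · intro h; exact ⟨⟨i, h⟩, by ext; simp⟩
    · rintro ⟨a, rfl⟩; simp
  unfold psum
  rw [h1, Finset.sum_image]
  intro a _ b _ hab
  exact Fin.castLE_injective ht hab

lemma bathtub {N : ℕ} (lam : Fin N → ℝ) (h : Antitone lam) (f : Fin t → Fin N)
    (hf : Function.Injective f) : ∑ b, lam (f b) ≤ psum lam t := by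
  classical
  have ht : t ≤ N := by
    have := Fintype.card_le_of_injective f hf
    simpa using this
  rw [← sum_top ht]
  have hS : (Finset.univ.image f).card = t := by
    rw [Finset.card_image_of_injective _ hf, Finset.card_univ, Fintype.card_fin]
  have h1 : ∑ b, lam (f b) = ∑ i ∈ Finset.univ.image f, lam i := by
    rw [Finset.sum_image fun a _ b _ hab => hf hab]
  have h2 : Finset.univ.image f =
      Finset.univ.image ((Finset.univ.image f).orderEmbOfFin hS) := by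
    rw [Finset.image_orderEmbOfFin_univ]
  rw [h1, h2, Finset.sum_image fun a _ b _ hab => ((Finset.univ.image f).orderEmbOfFin hS).injective hab]
  refine Finset.sum_le_sum fun a _ => h ?_
  rw [Fin.le_def]
  exact strictMono_le _ ((Finset.univ.image f).orderEmbOfFin hS).strictMono a a.2

lemma eig_sum {M : Matrix κ κ ℂ} (hM : M.IsHermitian) {z : Fin t → κ}
    (hz : Function.Injective z) :
    ∑ b, hM.eigenvalues (z b) ≤ psum hM.eigenvalues₀ t :=
  bathtub hM.eigenvalues₀ hM.eigenvalues₀_antitone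
    (fun b => (Fintype.equivOfCardEq (Fintype.card_fin _)).symm (z b))
    ((Equiv.injective _).comp hz)

lemma kyfan {M : Matrix κ κ ℂ} (hM : M.IsHermitian) {ω : (Fin t → κ) → ℂ} (hω : Alt ω) :
    (star ω ⬝ᵥ (D M *ᵥ ω)).re ≤ psum hM.eigenvalues₀ t * nsq ω := by
  obtain ⟨W, hW1, hW2, hW⟩ := spectral hM
  have h1 : star ω ⬝ᵥ (D M *ᵥ ω) =
      ((∑ z, ‖(rho (fun _ => Wᴴ) *ᵥ ω) z‖ ^ 2 * ∑ b, hM.eigenvalues (z b) : ℝ) : ℂ) := by
    rw [← energy_eq hW2]
    exact congrArg (fun X => star ω ⬝ᵥ (D X *ᵥ ω)) hW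
  rw [h1, Complex.ofReal_re]
  have h2 : nsq ω = nsq (rho (fun _ => Wᴴ) *ᵥ ω) :=
    (rho_nsq (W := W) (W' := Wᴴ) (by rw [conjTranspose_conjTranspose]; exact hW2) ω).symm
  rw [h2]
  unfold nsq
  rw [Finset.mul_sum]
  refine Finset.sum_le_sum fun z _ => ?_
  by_cases hz : (rho (fun _ => Wᴴ) *ᵥ ω) z = 0
  · rw [hz]; simp
  · have hinj : Function.Injective z := by
      intro a b hab
      by_contra hne
      exact hz ((hω.rho Wᴴ).zero_of hne hab)
    rw [mul_comm]
    exact mul_le_mul_of_nonneg_right (eig_sum hM hinj) (by positivity)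

lemma kyfan_eq {M : Matrix κ κ ℂ} (hM : M.IsHermitian) (ht : t ≤ Fintype.card κ) :
    ∃ ω : (Fin t → κ) → ℂ, Alt ω ∧ 0 < nsq ω ∧
      (star ω ⬝ᵥ (D M *ᵥ ω)).re = psum hM.eigenvalues₀ t * nsq ω := by
  obtain ⟨W, hW1, hW2, hW⟩ := spectral hM
  set e : Fin t → κ := fun a => (Fintype.equivOfCardEq (Fintype.card_fin _)) (Fin.castLE ht a)
    with he
  have hinj : Function.Injective e :=
    (Equiv.injective _).comp (Fin.castLE_injective ht)
  have h2 : rho (fun _ => Wᴴ) *ᵥ slater e W = slater e 1 := by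
    rw [rho_slater, hW1]
  have h3 : nsq (slater e 1) = nsq (slater e W) := by
    rw [← h2]
    exact rho_nsq (W := W) (W' := Wᴴ) (by rw [conjTranspose_conjTranspose]; exact hW2) _
  refine ⟨slater e W, slater_alt e W, ?_, ?_⟩
  · rw [← h3]; exact nsq_slater_one hinj
  · have h1 : star (slater e W) ⬝ᵥ (D M *ᵥ slater e W) =
        ((∑ z, ‖(rho (fun _ => Wᴴ) *ᵥ slater e W) z‖ ^ 2 * ∑ b, hM.eigenvalues (z b) : ℝ) : ℂ) := by
      rw [← energy_eq hW2]
      exact congrArg (fun X => star (slater e W) ⬝ᵥ (D X *ᵥ slater e W)) hW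
    rw [h1, Complex.ofReal_re, h2, energy_slater, ← h3, ← sum_top ht]
    congr 1
    refine Finset.sum_congr rfl fun a _ => ?_
    rw [he]
    unfold Matrix.IsHermitian.eigenvalues
    simp

lemma diag_bound (μ : κ → ℝ) (hM : (Matrix.diagonal fun x => (μ x : ℂ)).IsHermitian)
    {e : Fin t → κ} (he : Function.Injective e) :
    ∑ a, μ (e a) ≤ psum hM.eigenvalues₀ t := by
  have h1 := kyfan hM (slater_alt e (1 : Matrix κ κ ℂ))
  have h2 := energy_eq (t := t) (W := (1 : Matrix κ κ ℂ)) (by simp) μ (slater e 1)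
  rw [conjTranspose_one, one_mul, mul_one, rho_one, Matrix.one_mulVec, energy_slater] at h2
  rw [h2, Complex.ofReal_re] at h1
  exact le_of_mul_le_mul_right h1 (nsq_slater_one he)

end general

section main
variable {m n : ℕ}

/-- `X↓`: the diagonal matrix of the eigenvalues of the Hermitian matrix `X` in non-increasing
order. -/
noncomputable def down {k : ℕ} {X : Matrix (Fin k) (Fin k) ℂ} (hX : X.IsHermitian) :
    Matrix (Fin k) (Fin k) ℂ :=
  Matrix.diagonal fun i => ((hX.eigenvalues₀ (Fin.cast (Fintype.card_fin k).symm i) : ℝ) : ℂ)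

lemma spectral_down {k : ℕ} {X : Matrix (Fin k) (Fin k) ℂ} (hX : X.IsHermitian) :
    ∃ U : Matrix (Fin k) (Fin k) ℂ, Uᴴ * U = 1 ∧ U * Uᴴ = 1 ∧ X = U * down hX * Uᴴ := by
  obtain ⟨W, hW1, hW2, hW⟩ := spectral hX
  set π : Fin k ≃ Fin k := (finCongr (Fintype.card_fin k).symm).trans
    (Fintype.equivOfCardEq (Fintype.card_fin _)) with hπ
  have hd : down hX = (Matrix.diagonal fun i => ((hX.eigenvalues i : ℝ) : ℂ)).submatrix π π := by
    rw [Matrix.submatrix_diagonal_equiv]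
    unfold down
    congr 1
    funext i
    simp only [Function.comp_apply]
    unfold Matrix.IsHermitian.eigenvalues
    rw [hπ]
    simp
  refine ⟨W.submatrix id π, ?_, ?_, ?_⟩
  · rw [Matrix.conjTranspose_submatrix]
    have := Matrix.submatrix_mul_equiv Wᴴ W π (Equiv.refl (Fin k)) π
    simp only [Equiv.coe_refl] at this
    rw [this, hW1]
    simp
  · rw [Matrix.conjTranspose_submatrix, Matrix.submatrix_mul_equiv, hW2]
    simp
  · rw [hd, Matrix.conjTranspose_submatrix, Matrix.submatrix_mul_equiv,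
      Matrix.submatrix_mul_equiv, ← hW]
    simp

lemma down_trace {k : ℕ} {X : Matrix (Fin k) (Fin k) ℂ} (hX : X.IsHermitian) :
    (down hX).trace = X.trace := by
  obtain ⟨U, h1, h2, h3⟩ := spectral_down hX
  conv_rhs => rw [h3]
  rw [Matrix.trace_mul_comm, ← Matrix.mul_assoc, h1, Matrix.one_mul]

lemma ev0_nonneg {k : ℕ} {X : Matrix (Fin k) (Fin k) ℂ} (hX : X.PosSemidef)
    (j : Fin (Fintype.card (Fin k))) : 0 ≤ hX.1.eigenvalues₀ j := by
  have h := hX.eigenvalues_nonneg ((Fintype.equivOfCardEq (Fintype.card_fin _)) j)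
  unfold Matrix.IsHermitian.eigenvalues at h
  simpa using h

lemma down_herm {k : ℕ} {X : Matrix (Fin k) (Fin k) ℂ} (hX : X.IsHermitian) :
    (down hX).IsHermitian := by
  unfold down
  refine Matrix.isHermitian_diagonal_of_self_adjoint _ ?_
  ext i
  simp

lemma herm_sum {R : Type*} [Fintype R] (A : R → Matrix (Fin m) (Fin m) ℂ)
    (B : R → Matrix (Fin n) (Fin n) ℂ) (hA : ∀ r, (A r).IsHermitian)
    (hB : ∀ r, (B r).IsHermitian) :
    (∑ r, Matrix.kroneckerMap (· * ·) (A r) (B r)).IsHermitian := by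
  unfold Matrix.IsHermitian
  rw [Matrix.conjTranspose_sum]
  refine Finset.sum_congr rfl fun r _ => ?_
  rw [Matrix.conjTranspose_kronecker, hA r, hB r]

/-- The main inequality. -/
theorem main_ineq {R : Type*} [Fintype R] (A : R → Matrix (Fin m) (Fin m) ℂ)
    (B : R → Matrix (Fin n) (Fin n) ℂ) (hA : ∀ r, (A r).PosSemidef)
    (hB : ∀ r, (B r).PosSemidef)
    (hM : (∑ r, Matrix.kroneckerMap (· * ·) (A r) (B r)).IsHermitian)
    (hM' : (∑ r, Matrix.kroneckerMap (· * ·) (down (hA r).1) (down (hB r).1)).IsHermitian)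
    {t : ℕ} (ht : t ≤ Fintype.card (Fin m × Fin n)) :
    psum hM.eigenvalues₀ t ≤ psum hM'.eigenvalues₀ t := by
  classical
  obtain ⟨ω, hω, hpos, hE⟩ := kyfan_eq hM ht
  refine le_of_mul_le_mul_right ?_ hpos
  rw [← hE]
  -- the sorted eigenvalues
  set a : R → Fin m → ℝ := fun r i =>
    (hA r).1.eigenvalues₀ (Fin.cast (Fintype.card_fin m).symm i) with ha
  set b : R → Fin n → ℝ := fun r i =>
    (hB r).1.eigenvalues₀ (Fin.cast (Fintype.card_fin n).symm i) with hb
  have haA : ∀ r, Antitone (a r) := by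
    intro r i j hij
    refine (hA r).1.eigenvalues₀_antitone ?_
    rw [Fin.le_def]
    exact hij
  have hbA : ∀ r, Antitone (b r) := by
    intro r i j hij
    refine (hB r).1.eigenvalues₀_antitone ?_
    rw [Fin.le_def]
    exact hij
  have ha0 : ∀ r i, 0 ≤ a r i := fun r i => ev0_nonneg (hA r) _
  have hb0 : ∀ r i, 0 ≤ b r i := fun r i => ev0_nonneg (hB r) _
  choose U hU1 hU2 hU using fun r => spectral_down (hA r).1
  choose V hV1 hV2 hV using fun r => spectral_down (hB r).1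
  -- the decomposition
  obtain ⟨c, hc, hωc⟩ := decomp (ω := (WithLp.toLp 2 ω : HS m n t)) hω
  have hK : ∀ r, Matrix.kroneckerMap (· * ·) (A r) (B r) =
      kr (U r) (V r) * Matrix.diagonal (fun x : Fin m × Fin n => ((a r x.1 * b r x.2 : ℝ) : ℂ)) *
        (kr (U r) (V r))ᴴ := by
    intro r
    have h1 : Matrix.diagonal (fun x : Fin m × Fin n => ((a r x.1 * b r x.2 : ℝ) : ℂ)) =
        kr (down (hA r).1) (down (hB r).1) := by
      unfold kr down
      have := Matrix.diagonal_kronecker_diagonal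
        (fun i => ((a r i : ℝ) : ℂ)) (fun i => ((b r i : ℝ) : ℂ))
      refine Eq.trans ?_ this.symm
      congr 1
      funext x
      push_cast
      rfl
    rw [h1, kr_star, kr_mul, kr_mul, ← hU r, ← hV r]
    rfl
  have hUV : ∀ r, kr (U r) (V r) * (kr (U r) (V r))ᴴ = 1 := by
    intro r
    rw [kr_star, kr_mul, hU2 r, hV2 r, kr_one]
  have hen : (star ω ⬝ᵥ (D (∑ r, Matrix.kroneckerMap (· * ·) (A r) (B r)) *ᵥ ω)).re =
      ∑ r, ∑ z, ‖(rho (fun _ => kr (U r)ᴴ (V r)ᴴ) *ᵥ ω) z‖ ^ 2 *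
        ∑ s, a r (z s).1 * b r (z s).2 := by
    rw [D_sum, Matrix.sum_mulVec, dotProduct_sum, Complex.re_sum]
    refine Finset.sum_congr rfl fun r _ => ?_
    rw [hK r, energy_eq (hUV r), Complex.ofReal_re, kr_star]
  rw [hen]
  -- each summand
  have hr : ∀ r, ∑ z, ‖(rho (fun _ => kr (U r)ᴴ (V r)ᴴ) *ᵥ ω) z‖ ^ 2 *
        ∑ s, a r (z s).1 * b r (z s).2 ≤ ∑ T, ‖c T‖ ^ 2 * ∑ x ∈ T, a r x.1 * b r x.2 := by
    intro r
    set c' : Finset (Fin m × Fin n) → HS m n t := fun T =>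
      WithLp.toLp 2 (rho (fun _ => kr (U r)ᴴ (V r)ᴴ) *ᵥ (c T).ofLp) with hc'
    have h1 : ∀ T, c' T ∈ KT t T := fun T => KT_rho (hc T) _ _
    have h2 : (∑ T, c' T).ofLp = rho (fun _ => kr (U r)ᴴ (V r)ᴴ) *ᵥ ω := by
      have e1 : ω = ∑ T, (c T).ofLp := by
        have := congrArg WithLp.ofLp hωc
        rw [WithLp.ofLp_sum] at this
        exact this
      rw [WithLp.ofLp_sum]
      conv_rhs => rw [e1]
      rw [Matrix.mulVec_sum]
    have h3 : ∀ T, ‖c' T‖ ^ 2 = ‖c T‖ ^ 2 := by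
      intro T
      rw [EuclideanSpace.norm_sq_eq, EuclideanSpace.norm_sq_eq]
      refine rho_nsq (W := kr (U r) (V r)) (W' := kr (U r)ᴴ (V r)ᴴ) ?_ _
      rw [kr_star, conjTranspose_conjTranspose, conjTranspose_conjTranspose, kr_mul, hU2 r,
        hV2 r, kr_one]
    have h4 := energy2 (a r) (b r) (haA r) (hbA r) (ha0 r) (hb0 r) c' h1
    rw [h2] at h4
    simpa only [h3] using h4
  refine (Finset.sum_le_sum fun r _ => hr r).trans ?_
  have hdiag : ∑ r, Matrix.kroneckerMap (· * ·) (down (hA r).1) (down (hB r).1) =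
      Matrix.diagonal (fun x : Fin m × Fin n => ((∑ r, a r x.1 * b r x.2 : ℝ) : ℂ)) := by
    ext x y
    rw [Matrix.sum_apply]
    by_cases hxy : x = y
    · subst hxy
      simp [down, ha, hb]
    · rw [Matrix.diagonal_apply_ne _ hxy]
      refine Finset.sum_eq_zero fun r _ => ?_
      simp only [Matrix.kroneckerMap_apply]
      by_cases h1 : x.1 = y.1
      · have h2 : x.2 ≠ y.2 := fun h2 => hxy (Prod.ext h1 h2)
        unfold down
        rw [Matrix.diagonal_apply_ne _ h2, mul_zero]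
      · unfold down
        rw [Matrix.diagonal_apply_ne _ h1, zero_mul]
  rw [Finset.sum_comm]
  have hnsq : nsq ω = ∑ T, ‖c T‖ ^ 2 := by
    have h1 : nsq ω = ‖(WithLp.toLp 2 ω : HS m n t)‖ ^ 2 := (EuclideanSpace.norm_sq_eq _).symm
    rw [h1, hωc]
    refine pyth _ c fun T _ T' _ hne => ?_
    exact (Submodule.isOrtho_iff_inner_eq.1 (KT_ortho hne)) _ (hc T) _ (hc T')
  rw [hnsq, Finset.mul_sum]
  refine Finset.sum_le_sum fun T _ => ?_
  rw [← Finset.mul_sum, Finset.sum_comm, mul_comm]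
  by_cases hT : c T = 0
  · rw [hT]; simp
  · obtain ⟨e, he, heT⟩ := KT_card (hc T) hT
    refine mul_le_mul_of_nonneg_right ?_ (by positivity)
    have h1 : ∑ x ∈ T, ∑ r, a r x.1 * b r x.2 = ∑ s, ∑ r, a r (e s).1 * b r (e s).2 := by
      rw [← heT, Finset.sum_image fun a _ b _ hab => he.1 hab]
    rw [h1]
    have key : ∀ (N : Matrix (Fin m × Fin n) (Fin m × Fin n) ℂ) (hN : N.IsHermitian),
        N = Matrix.diagonal (fun x : Fin m × Fin n => ((∑ r, a r x.1 * b r x.2 : ℝ) : ℂ)) →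
        ∑ s, ∑ r, a r (e s).1 * b r (e s).2 ≤ psum hN.eigenvalues₀ t := by
      rintro N hN rfl
      exact diag_bound (fun x : Fin m × Fin n => ∑ r, a r x.1 * b r x.2) hN he.1
    exact key _ hM' hdiag

theorem total {R : Type*} [Fintype R] (A : R → Matrix (Fin m) (Fin m) ℂ)
    (B : R → Matrix (Fin n) (Fin n) ℂ) (hA : ∀ r, (A r).PosSemidef)
    (hB : ∀ r, (B r).PosSemidef)
    (hM : (∑ r, Matrix.kroneckerMap (· * ·) (A r) (B r)).IsHermitian)
    (hM' : (∑ r, Matrix.kroneckerMap (· * ·) (down (hA r).1) (down (hB r).1)).IsHermitian) :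
    ∑ i, hM.eigenvalues₀ i = ∑ i, hM'.eigenvalues₀ i := by
  have key : ∀ {N : Matrix (Fin m × Fin n) (Fin m × Fin n) ℂ} (hN : N.IsHermitian),
      ((∑ i, hN.eigenvalues₀ i : ℝ) : ℂ) = N.trace := by
    intro N hN
    rw [hN.trace_eq_sum_eigenvalues]
    unfold Matrix.IsHermitian.eigenvalues
    rw [← Equiv.sum_comp (Fintype.equivOfCardEq (Fintype.card_fin _)).symm hN.eigenvalues₀]
    push_cast
    rfl
  have h1 := key hM
  have h2 := key hM'
  have h3 : (∑ r, Matrix.kroneckerMap (· * ·) (A r) (B r)).trace =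
      (∑ r, Matrix.kroneckerMap (· * ·) (down (hA r).1) (down (hB r).1)).trace := by
    rw [Matrix.trace_sum, Matrix.trace_sum]
    refine Finset.sum_congr rfl fun r _ => ?_
    rw [Matrix.trace_kronecker, Matrix.trace_kronecker, down_trace, down_trace]
  rw [h3, ← h2] at h1
  exact_mod_cast h1

end main

end Q170.KF
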