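import Mathlib

namespace Q170.KF

open Matrix

set_option linter.unusedSectionVars false

section rho
variable {ι κ : Type*} [Fintype ι] [DecidableEq ι] [Fintype κ] [DecidableEq κ]

/-- tensor product of a family of matrices -/
noncomputable def rho (Y : ι → Matrix κ κ ℂ) : Matrix (ι → κ) (ι → κ) ℂ :=
  Matrix.of fun z w => ∏ b, Y b (z b) (w b)

lemma rho_apply (Y : ι → Matrix κ κ ℂ) (z w : ι → κ) : rho Y z w = ∏ b, Y b (z b) (w b) := rfl

lemma rho_mul (Y Z : ι → Matrix κ κ ℂ) : rho Y * rho Z = rho (fun b => Y b * Z b) := by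
  ext z w
  rw [Matrix.mul_apply, rho_apply]
  simp only [rho_apply, Matrix.mul_apply]
  rw [Finset.prod_univ_sum, Fintype.piFinset_univ]
  exact Finset.sum_congr rfl fun v _ => by rw [Finset.prod_mul_distrib]

lemma rho_one : rho (fun _ : ι => (1 : Matrix κ κ ℂ)) = 1 := by
  ext z w
  rw [rho_apply]
  by_cases h : z = w
  · subst h; simp
  · rw [Matrix.one_apply_ne h]
    obtain ⟨b, hb⟩ := Function.ne_iff.1 h
    exact Finset.prod_eq_zero (Finset.mem_univ b) (Matrix.one_apply_ne hb)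

lemma rho_star (Y : ι → Matrix κ κ ℂ) : (rho Y)ᴴ = rho (fun b => (Y b)ᴴ) := by
  ext z w
  rw [Matrix.conjTranspose_apply, rho_apply, rho_apply, star_prod]
  rfl

/-- the sum over the factors -/
noncomputable def D (X : Matrix κ κ ℂ) : Matrix (ι → κ) (ι → κ) ℂ :=
  ∑ s, rho (Function.update (fun _ => (1 : Matrix κ κ ℂ)) s X)

lemma D_conj (X Y Y' : Matrix κ κ ℂ) (h : Y * Y' = 1) :
    (D (Y * X * Y') : Matrix (ι → κ) (ι → κ) ℂ) =
      rho (fun _ => Y) * D X * rho (fun _ => Y') := by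
  unfold D
  rw [Finset.mul_sum, Finset.sum_mul]
  refine Finset.sum_congr rfl fun s _ => ?_
  rw [rho_mul, rho_mul]
  congr 1
  funext b
  by_cases hb : b = s
  · subst hb; simp
  · simp [Function.update_of_ne hb, h]

lemma rho_update (s : ι) (X : Matrix κ κ ℂ) (z w : ι → κ) :
    rho (Function.update (fun _ => (1 : Matrix κ κ ℂ)) s X) z w =
      X (z s) (w s) * ∏ b ∈ Finset.univ.erase s, (1 : Matrix κ κ ℂ) (z b) (w b) := by
  rw [rho_apply, ← Finset.mul_prod_erase Finset.univ _ (Finset.mem_univ s)]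
  simp only [Function.update_self]
  congr 1
  refine Finset.prod_congr rfl fun b hb => ?_
  rw [Function.update_of_ne (Finset.ne_of_mem_erase hb)]

lemma D_sum {R : Type*} (s : Finset R) (X : R → Matrix κ κ ℂ) :
    (D (∑ r ∈ s, X r) : Matrix (ι → κ) (ι → κ) ℂ) = ∑ r ∈ s, D (X r) := by
  unfold D
  rw [Finset.sum_comm]
  refine Finset.sum_congr rfl fun a _ => ?_
  ext z w
  rw [Matrix.sum_apply]
  simp only [rho_update]
  rw [Matrix.sum_apply, Finset.sum_mul]

lemma D_diag (x : κ → ℂ) :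
    (D (Matrix.diagonal x) : Matrix (ι → κ) (ι → κ) ℂ) =
      Matrix.diagonal (fun z => ∑ b, x (z b)) := by
  ext z w
  unfold D
  rw [Matrix.sum_apply]
  simp only [rho_update]
  by_cases h : z = w
  · subst h
    simp
  · rw [Matrix.diagonal_apply_ne _ h]
    refine Finset.sum_eq_zero fun s _ => ?_
    by_cases hs : z s = w s
    · obtain ⟨b, hb⟩ := Function.ne_iff.1 h
      have hbs : b ≠ s := by rintro rfl; exact hb hs
      have h0 : ∏ b ∈ Finset.univ.erase s, (1 : Matrix κ κ ℂ) (z b) (w b) = 0 :=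
        Finset.prod_eq_zero (i := b) (Finset.mem_erase.2 ⟨hbs, Finset.mem_univ b⟩)
          (Matrix.one_apply_ne hb)
      rw [h0, mul_zero]
    · rw [Matrix.diagonal_apply_ne _ hs, zero_mul]

end rho

section alt
variable {t : ℕ} {κ : Type*} [Fintype κ] [DecidableEq κ]

/-- antisymmetric vectors -/
def Alt (ω : (Fin t → κ) → ℂ) : Prop :=
  ∀ (σ : Equiv.Perm (Fin t)) (z : Fin t → κ),
    ω (fun b => z (σ b)) = ((Equiv.Perm.sign σ : ℤ) : ℂ) * ω z

lemma Alt.zero_of {ω : (Fin t → κ) → ℂ} (h : Alt ω) {z : Fin t → κ} {a b : Fin t}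
    (hab : a ≠ b) (hz : z a = z b) : ω z = 0 := by
  have h1 := h (Equiv.swap a b) z
  have h2 : (fun c => z (Equiv.swap a b c)) = z := by
    funext c
    rw [Equiv.swap_apply_def]
    split_ifs with h1 h2
    · rw [h1, hz]
    · rw [h2, hz]
    · rfl
  rw [h2, Equiv.Perm.sign_swap hab] at h1
  simp at h1
  have : (2 : ℂ) * ω z = 0 := by linear_combination h1
  simpa using this

lemma Alt.rho {ω : (Fin t → κ) → ℂ} (h : Alt ω) (Y : Matrix κ κ ℂ) :
    Alt (rho (fun _ => Y) *ᵥ ω) := by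
  intro σ z
  simp only [Matrix.mulVec, dotProduct, rho_apply]
  rw [Finset.mul_sum]
  refine Fintype.sum_equiv (Equiv.arrowCongr σ (Equiv.refl κ)) _ _ ?_
  intro w
  have h1 : ω w = ((Equiv.Perm.sign σ : ℤ) : ℂ) * ω ((Equiv.arrowCongr σ (Equiv.refl κ)) w) := by
    have := h σ ((Equiv.arrowCongr σ (Equiv.refl κ)) w)
    rw [← this]
    congr 1
    funext b
    simp [Equiv.arrowCongr]
  have h2 : ∏ b, Y (z (σ b)) (w b) =
      ∏ b, Y (z b) ((Equiv.arrowCongr σ (Equiv.refl κ)) w b) := by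
    refine Fintype.prod_equiv σ _ _ fun b => ?_
    simp [Equiv.arrowCongr]
  rw [h2, h1]
  ring

end alt

end Q170.KF
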