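import Pool.Agent.Q170.KF.Rho

namespace Q170.KF

open Matrix

set_option linter.unusedSectionVars false

section slater
variable {t : ℕ} {κ : Type*} [Fintype κ] [DecidableEq κ]

/-- the (unnormalised) Slater determinant of the columns `e 0, …, e (t-1)` of `G` -/
noncomputable def slater (e : Fin t → κ) (G : Matrix κ κ ℂ) (z : Fin t → κ) : ℂ :=
  (Matrix.of fun a b => G (z b) (e a)).det

lemma slater_eq (e : Fin t → κ) (G : Matrix κ κ ℂ) (z : Fin t → κ) :
    slater e G z = ∑ σ : Equiv.Perm (Fin t), ((Equiv.Perm.sign σ : ℤ) : ℂ) *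
      ∏ b, G (z b) (e (σ b)) := by
  unfold slater
  rw [Matrix.det_apply']
  rfl

lemma slater_alt (e : Fin t → κ) (G : Matrix κ κ ℂ) : Alt (slater e G) := by
  intro σ z
  have := Matrix.det_permute' σ (Matrix.of fun a b => G (z b) (e a))
  unfold slater
  rw [← this]
  rfl

lemma rho_slater (Y : Matrix κ κ ℂ) (e : Fin t → κ) (G : Matrix κ κ ℂ) :
    rho (fun _ => Y) *ᵥ slater e G = slater e (Y * G) := by
  funext z
  simp only [Matrix.mulVec, dotProduct, rho_apply, slater_eq]
  simp only [Finset.mul_sum]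
  rw [Finset.sum_comm]
  refine Finset.sum_congr rfl fun σ _ => ?_
  have h1 : ∏ b, (Y * G) (z b) (e (σ b)) =
      ∑ w : Fin t → κ, (∏ b, Y (z b) (w b)) * ∏ b, G (w b) (e (σ b)) := by
    simp only [Matrix.mul_apply]
    rw [Finset.prod_univ_sum, Fintype.piFinset_univ]
    exact Finset.sum_congr rfl fun v _ => by rw [Finset.prod_mul_distrib]
  rw [h1, Finset.mul_sum]
  exact Finset.sum_congr rfl fun w _ => by ring

lemma star_slater_one (e : Fin t → κ) {η : (Fin t → κ) → ℂ} (h : Alt η) :
    star (slater e 1) ⬝ᵥ η = (t.factorial : ℂ) * η e := by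
  have h1 : ∀ z : Fin t → κ, star (slater e 1) z =
      ∑ σ : Equiv.Perm (Fin t), ((Equiv.Perm.sign σ : ℤ) : ℂ) *
        (if z = (fun b => e (σ b)) then 1 else 0) := by
    intro z
    rw [Pi.star_apply, slater_eq, star_sum]
    refine Finset.sum_congr rfl fun σ _ => ?_
    rw [star_mul', star_prod]
    congr 1
    · simp
    · by_cases hz : z = fun b => e (σ b)
      · rw [if_pos hz]
        refine Finset.prod_eq_one fun b _ => ?_
        rw [hz]; simp
      · rw [if_neg hz]
        obtain ⟨b, hb⟩ := Function.ne_iff.1 hz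
        refine Finset.prod_eq_zero (Finset.mem_univ b) ?_
        rw [Matrix.one_apply_ne hb, star_zero]
  simp only [dotProduct, h1, Finset.sum_mul]
  rw [Finset.sum_comm]
  have h2 : ∀ σ : Equiv.Perm (Fin t), ∑ z : Fin t → κ, ((Equiv.Perm.sign σ : ℤ) : ℂ) *
      (if z = (fun b => e (σ b)) then (1 : ℂ) else 0) * η z = η e := by
    intro σ
    rw [Finset.sum_eq_single (fun b => e (σ b))]
    · rw [if_pos rfl, mul_one, h σ e, ← mul_assoc]
      have : ((Equiv.Perm.sign σ : ℤ) : ℂ) * ((Equiv.Perm.sign σ : ℤ) : ℂ) = 1 := by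
        rw [← Int.cast_mul]
        rcases Int.units_eq_one_or (Equiv.Perm.sign σ) with h | h <;> rw [h] <;> simp
      rw [this, one_mul]
    · intro z _ hz
      rw [if_neg hz]; ring
    · intro hz; exact absurd (Finset.mem_univ _) hz
  rw [Finset.sum_congr rfl fun σ _ => h2 σ]
  simp [Fintype.card_perm]

lemma star_slater (e : Fin t → κ) (G : Matrix κ κ ℂ) {η : (Fin t → κ) → ℂ} (h : Alt η) :
    star (slater e G) ⬝ᵥ η = (t.factorial : ℂ) * (rho (fun _ => Gᴴ) *ᵥ η) e := by
  have h1 : slater e G = rho (fun _ => G) *ᵥ slater e 1 := by rw [rho_slater, mul_one]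
  rw [h1, Matrix.star_mulVec, ← Matrix.dotProduct_mulVec, rho_star]
  exact star_slater_one e (h.rho _)

lemma star_slater_slater (e e' : Fin t → κ) (G G' : Matrix κ κ ℂ) :
    star (slater e' G') ⬝ᵥ slater e G = (t.factorial : ℂ) * slater e (G'ᴴ * G) e' := by
  rw [star_slater e' G' (slater_alt e G), rho_slater]

end slater

/-! ### The vanishing lemma -/

section vanish
variable {m : ℕ} {V : Type*} [AddCommGroup V] [Module ℂ V] [FiniteDimensional ℂ V]

/-- span of the vectors with index below `i` -/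
noncomputable def below (x : Fin m → V) (i : Fin m) : Submodule ℂ V :=
  Submodule.span ℂ (x '' {j | j < i})

/-- dimension of the span of the vectors with index below `i` -/
noncomputable def dd (x : Fin m → V) (i : Fin m) : ℕ := Module.finrank ℂ (below x i)

/-- the pivots -/
def Piv (x : Fin m → V) (i : Fin m) : Prop := x i ∉ below x i

lemma dd_le (x : Fin m → V) (i : Fin m) : dd x i ≤ i := by
  classical
  unfold dd below
  have h1 : x '' {j | j < i} = ((Finset.univ.filter (fun j => j < i)).image x : Finset V) := by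
    ext v; simp
  rw [h1]
  refine (finrank_span_finset_le_card _).trans (Finset.card_image_le.trans ?_)
  have : (Finset.univ.filter (fun j : Fin m => j < i)) = Finset.Iio i := by ext; simp
  rw [this, Fin.card_Iio]

lemma below_mono (x : Fin m → V) {i j : Fin m} (h : i ≤ j) : below x i ≤ below x j :=
  Submodule.span_mono (Set.image_mono fun k hk => lt_of_lt_of_le hk h)

lemma dd_lt_of_piv (x : Fin m → V) {i : Fin m} (hi : Piv x i) {W : Submodule ℂ V}
    (hW : below x i ≤ W) (hxi : x i ∈ W) : dd x i < Module.finrank ℂ W := by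
  refine Submodule.finrank_lt_finrank_of_lt (lt_of_le_of_ne hW ?_)
  rintro rfl
  exact hi hxi

lemma dd_lt_dd (x : Fin m → V) {i j : Fin m} (hi : Piv x i) (hij : i < j) :
    dd x i < dd x j :=
  dd_lt_of_piv x hi (below_mono x hij.le) (Submodule.subset_span ⟨i, hij, rfl⟩)

lemma dd_lt_finrank (x : Fin m → V) {i : Fin m} (hi : Piv x i) : dd x i < Module.finrank ℂ V := by
  have := dd_lt_of_piv x hi (W := ⊤) le_top trivial
  rwa [finrank_top] at this

lemma mem_span_piv (x : Fin m → V) (i : Fin m) :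
    x i ∈ Submodule.span ℂ (x '' {j | j ≤ i ∧ Piv x j}) := by
  induction i using WellFoundedLT.induction with
  | ind i ih =>
    by_cases hi : Piv x i
    · exact Submodule.subset_span ⟨i, ⟨le_rfl, hi⟩, rfl⟩
    · unfold Piv at hi
      rw [not_not] at hi
      refine Submodule.span_le.2 ?_ hi
      rintro _ ⟨j, hj, rfl⟩
      refine Submodule.span_mono ?_ (ih j hj)
      exact Set.image_mono fun k hk => ⟨hk.1.trans (le_of_lt hj), hk.2⟩

end vanish

/-- The vanishing lemma. -/
lemma vanish {m n t : ℕ} (e : Fin t → Fin m × Fin n) (hinj : Function.Injective e)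
    (hlow : ∀ a : Fin t, ∀ x : Fin m × Fin n, x ≤ e a → ∃ a', e a' = x)
    (g : Matrix (Fin m) (Fin m) ℂ) (h : Matrix (Fin n) (Fin n) ℂ) (z : Fin t → Fin m × Fin n)
    (hz : slater e (Matrix.kroneckerMap (· * ·) g h) z ≠ 0) (k : Fin m) (l : Fin n) :
    (Finset.univ.filter fun b => z b ≤ (k, l)).card ≤
      (Finset.univ.filter fun a => e a ≤ (k, l)).card := by
  classical
  -- the truncated columns
  set x : Fin m → ({i : Fin m // i ≤ k} → ℂ) := fun i i' => g i' i with hx
  set y : Fin n → ({j : Fin n // j ≤ l} → ℂ) := fun j j' => h j' j with hy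
  set S := {b : Fin t // z b ≤ (k, l)} with hS
  -- the rows in `S` are linearly independent
  set A : Matrix (Fin t) (Fin t) ℂ := Matrix.of fun b a => g (z b).1 (e a).1 * h (z b).2 (e a).2
    with hA
  have hdet : A.det ≠ 0 := by
    have : slater e (Matrix.kroneckerMap (· * ·) g h) z = Aᵀ.det := rfl
    rw [this, Matrix.det_transpose] at hz
    exact hz
  have hLI : LinearIndependent ℂ A.row := Matrix.linearIndependent_rows_of_det_ne_zero hdet
  set B : Matrix S (Fin t) ℂ := Matrix.of fun b a => A b a with hB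
  have hLIB : LinearIndependent ℂ B.row := hLI.comp (fun b : S => (b : Fin t)) Subtype.val_injective
  have hrank : B.rank = Fintype.card S := hLIB.rank_matrix
  rw [Matrix.rank_eq_finrank_span_cols] at hrank
  -- a spanning set for the columns
  set β : ({i : Fin m // i ≤ k} → ℂ) →ₗ[ℂ] ({j : Fin n // j ≤ l} → ℂ) →ₗ[ℂ] (S → ℂ) :=
    LinearMap.mk₂ ℂ (fun u v b => u ⟨(z b).1, b.2.1⟩ * v ⟨(z b).2, b.2.2⟩)
      (fun u u' v => by funext b; simp [add_mul]) (fun c u v => by funext b; simp [mul_assoc])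
      (fun u v v' => by funext b; simp [mul_add]) (fun c u v => by funext b; simp; ring) with hβ
  set P : Finset (Fin t) := Finset.univ.filter fun a => Piv x (e a).1 ∧ Piv y (e a).2 with hP
  have hcol : ∀ a, B.col a ∈ Submodule.span ℂ ((fun a => B.col a) '' (P : Set (Fin t))) := by
    intro a
    have e1 : ∀ a, B.col a = β (x (e a).1) (y (e a).2) := by
      intro a; funext b; rfl
    have h1 := mem_span_piv x (e a).1
    have h2 := mem_span_piv y (e a).2
    have h3 := Submodule.apply_mem_map₂ β h1 h2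
    rw [Submodule.map₂_span_span] at h3
    rw [e1 a]
    refine Submodule.span_mono ?_ h3
    rintro _ ⟨_, ⟨i, ⟨hi1, hi2⟩, rfl⟩, _, ⟨j, ⟨hj1, hj2⟩, rfl⟩, rfl⟩
    obtain ⟨a', ha'⟩ := hlow a (i, j) ⟨hi1, hj1⟩
    refine ⟨a', ?_, ?_⟩
    · simp only [hP, Finset.coe_filter, Finset.mem_univ, true_and]
      change Piv x (e a').1 ∧ Piv y (e a').2
      rw [ha']
      exact ⟨hi2, hj2⟩
    · simp only
      rw [e1 a', ha']
  have hle : Module.finrank ℂ (Submodule.span ℂ (Set.range B.col)) ≤ P.card := by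
    have h1 : Submodule.span ℂ (Set.range B.col) ≤
        Submodule.span ℂ ((fun a => B.col a) '' (P : Set (Fin t))) := by
      rw [Submodule.span_le]
      rintro _ ⟨a, rfl⟩
      exact hcol a
    refine (Submodule.finrank_mono h1).trans ?_
    have h2 : (fun a => B.col a) '' (P : Set (Fin t)) = ((P.image (fun a => B.col a) : Finset _) : Set _) := by
      simp
    rw [h2]
    exact (finrank_span_finset_le_card _).trans Finset.card_image_le
  have hcard : Fintype.card S = (Finset.univ.filter fun b => z b ≤ (k, l)).card := by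
    rw [Fintype.card_subtype]
  rw [← hcard, ← hrank]
  refine hle.trans ?_
  -- the injection
  have hfx : Module.finrank ℂ ({i : Fin m // i ≤ k} → ℂ) = k + 1 := by
    rw [Module.finrank_fintype_fun_eq_card, Fintype.card_subtype]
    have : (Finset.univ.filter fun i : Fin m => i ≤ k) = Finset.Iic k := by ext; simp
    rw [this, Fin.card_Iic]
  have hfy : Module.finrank ℂ ({j : Fin n // j ≤ l} → ℂ) = l + 1 := by
    rw [Module.finrank_fintype_fun_eq_card, Fintype.card_subtype]
    have : (Finset.univ.filter fun j : Fin n => j ≤ l) = Finset.Iic l := by ext; simp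
    rw [this, Fin.card_Iic]
  have hex : ∀ a ∈ P, ∃ a', e a' ≤ (k, l) ∧ ((e a').1 : ℕ) = dd x (e a).1 ∧
      ((e a').2 : ℕ) = dd y (e a).2 := by
    intro a ha
    obtain ⟨h1, h2⟩ := (Finset.mem_filter.1 ha).2
    have h3 := dd_lt_finrank x h1
    have h4 := dd_lt_finrank y h2
    rw [hfx] at h3
    rw [hfy] at h4
    have h5 := dd_le x (e a).1
    have h6 := dd_le y (e a).2
    obtain ⟨a', ha'⟩ := hlow a (⟨dd x (e a).1, h5.trans_lt (e a).1.2⟩,
      ⟨dd y (e a).2, h6.trans_lt (e a).2.2⟩) ⟨h5, h6⟩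
    refine ⟨a', ?_, ?_, ?_⟩
    · rw [ha']
      exact ⟨Nat.lt_succ_iff.1 h3, Nat.lt_succ_iff.1 h4⟩
    · rw [ha']
    · rw [ha']
  choose! p hp using hex
  refine Finset.card_le_card_of_injOn p (fun a ha => by simpa using (hp a ha).1) ?_
  intro a ha a' ha' hpp
  have h1 := hp a ha
  have h2 := hp a' ha'
  rw [hpp] at h1
  have e1 : dd x (e a).1 = dd x (e a').1 := h1.2.1.symm.trans h2.2.1
  have e2 : dd y (e a).2 = dd y (e a').2 := h1.2.2.symm.trans h2.2.2
  have p1 := (Finset.mem_filter.1 ha).2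
  have p2 := (Finset.mem_filter.1 ha').2
  apply hinj
  refine Prod.ext ?_ ?_
  · rcases lt_trichotomy (e a).1 (e a').1 with hl | hl | hl
    · exact absurd e1 (dd_lt_dd x p1.1 hl).ne
    · exact hl
    · exact absurd e1.symm (dd_lt_dd x p2.1 hl).ne
  · rcases lt_trichotomy (e a).2 (e a').2 with hl | hl | hl
    · exact absurd e2 (dd_lt_dd y p1.2 hl).ne
    · exact hl
    · exact absurd e2.symm (dd_lt_dd y p2.2 hl).ne

end Q170.KF
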