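import Pool.Agent.Q170.KF.Slater

namespace Q170.KF

open Matrix

set_option linter.unusedSectionVars false
set_option linter.unusedVariables false

section basic
variable {t : ℕ} {κ : Type*} [Fintype κ] [DecidableEq κ]

lemma sum_off (s : Fin t) (z : Fin t → κ) (G : (Fin t → κ) → ℂ) :
    ∑ w : Fin t → κ, (∏ b ∈ Finset.univ.erase s, (1 : Matrix κ κ ℂ) (z b) (w b)) * G w =
      ∑ p : κ, G (Function.update z s p) := by
  classical
  have h1 : ∑ p : κ, G (Function.update z s p) =
      ∑ w ∈ (Finset.univ : Finset κ).image (fun p => Function.update z s p), G w := by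
    rw [Finset.sum_image]
    intro p _ q _ hpq
    exact Function.update_injective z s hpq
  rw [h1, ← Finset.sum_subset (Finset.subset_univ ((Finset.univ : Finset κ).image
    (fun p => Function.update z s p)))]
  · refine Finset.sum_congr rfl fun w hw => ?_
    obtain ⟨p, _, rfl⟩ := Finset.mem_image.1 hw
    have : ∏ b ∈ Finset.univ.erase s, (1 : Matrix κ κ ℂ) (z b) (Function.update z s p b) = 1 := by
      refine Finset.prod_eq_one fun b hb => ?_
      rw [Function.update_of_ne (Finset.ne_of_mem_erase hb), Matrix.one_apply_eq]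
    rw [this, one_mul]
  · intro w _ hw
    have : ∃ b ∈ Finset.univ.erase s, z b ≠ w b := by
      by_contra hc
      push Not at hc
      apply hw
      refine Finset.mem_image.2 ⟨w s, Finset.mem_univ _, ?_⟩
      funext b
      by_cases hb : b = s
      · subst hb; simp
      · rw [Function.update_of_ne hb]
        exact hc b (Finset.mem_erase.2 ⟨hb, Finset.mem_univ _⟩)
    obtain ⟨b, hb, hne⟩ := this
    have h0 : ∏ b ∈ Finset.univ.erase s, (1 : Matrix κ κ ℂ) (z b) (w b) = 0 :=
      Finset.prod_eq_zero (i := b) hb (Matrix.one_apply_ne hne)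
    rw [h0, zero_mul]

lemma D_mulVec (X : Matrix κ κ ℂ) (ω : (Fin t → κ) → ℂ) (z : Fin t → κ) :
    (D X *ᵥ ω) z = ∑ s, ∑ p, X (z s) p * ω (Function.update z s p) := by
  unfold D
  rw [Matrix.sum_mulVec, Finset.sum_apply]
  refine Finset.sum_congr rfl fun s _ => ?_
  simp only [Matrix.mulVec, dotProduct, rho_update]
  have := sum_off s z (fun w => X (z s) (w s) * ω w)
  simp only [Function.update_self] at this
  rw [← this]
  exact Finset.sum_congr rfl fun w _ => by ring

/-- If `ρ(1 + ε X) ω = ω` for all `ε` then `D(X) ω = 0`. -/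
lemma D_zero (X : Matrix κ κ ℂ) (ω : (Fin t → κ) → ℂ)
    (h : ∀ ε : ℂ, rho (fun _ => (1 + ε • X : Matrix κ κ ℂ)) *ᵥ ω = ω) : D X *ᵥ ω = 0 := by
  funext z
  have h1 : HasDerivAt (fun ε : ℂ => (rho (fun _ => (1 + ε • X : Matrix κ κ ℂ)) *ᵥ ω) z)
      ((D X *ᵥ ω) z) 0 := by
    have h2 : ∀ w : Fin t → κ, HasDerivAt
        (fun ε : ℂ => (∏ b : Fin t, ((1 : Matrix κ κ ℂ) (z b) (w b) + ε * X (z b) (w b))) * ω w)
        ((∑ s, (∏ b ∈ Finset.univ.erase s, (1 : Matrix κ κ ℂ) (z b) (w b)) * X (z s) (w s)) * ω w) 0 := by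
      intro w
      apply HasDerivAt.mul_const
      have h3 : ∀ b ∈ (Finset.univ : Finset (Fin t)), HasDerivAt
          (fun ε : ℂ => (1 : Matrix κ κ ℂ) (z b) (w b) + ε * X (z b) (w b)) (X (z b) (w b)) 0 := by
        intro b _
        have := ((hasDerivAt_id (0 : ℂ)).mul_const (X (z b) (w b))).const_add
          ((1 : Matrix κ κ ℂ) (z b) (w b))
        simpa using this
      have h4 := HasDerivAt.fun_finsetProd h3
      simpa [smul_eq_mul] using h4
    have h5 := HasDerivAt.fun_sum (u := Finset.univ) fun w _ => h2 w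
    have h6 : (fun ε : ℂ => (rho (fun _ => (1 + ε • X : Matrix κ κ ℂ)) *ᵥ ω) z) =
        fun ε => ∑ w, (∏ b : Fin t, ((1 : Matrix κ κ ℂ) (z b) (w b) + ε * X (z b) (w b))) * ω w := by
      funext ε
      simp only [Matrix.mulVec, dotProduct, rho_apply, Matrix.add_apply, Matrix.smul_apply,
        smul_eq_mul]
    rw [h6]
    refine h5.congr_deriv (Eq.symm ?_)
    rw [D_mulVec]
    have h7 : ∀ s : Fin t, ∑ p, X (z s) p * ω (Function.update z s p) =
        ∑ w : Fin t → κ, (∏ b ∈ Finset.univ.erase s, (1 : Matrix κ κ ℂ) (z b) (w b)) *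
          (X (z s) (w s) * ω w) := by
      intro s
      rw [sum_off]
      simp
    simp only [h7]
    rw [Finset.sum_comm]
    refine Finset.sum_congr rfl fun w _ => ?_
    rw [Finset.sum_mul]
    exact Finset.sum_congr rfl fun s _ => by ring
  have h8 : (fun ε : ℂ => (rho (fun _ => (1 + ε • X : Matrix κ κ ℂ)) *ᵥ ω) z) = fun _ => ω z := by
    funext ε; rw [h ε]
  rw [h8] at h1
  exact h1.unique (hasDerivAt_const _ _)

end basic

section grid
variable {m n t : ℕ}

/-- `e` enumerates a lower set -/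
def Enum (e : Fin t → Fin m × Fin n) : Prop :=
  Function.Injective e ∧ ∀ a : Fin t, ∀ x : Fin m × Fin n, x ≤ e a → ∃ a', e a' = x

/-- height -/
def hgt (z : Fin t → Fin m × Fin n) : ℕ := ∑ b, (((z b).1 : ℕ) + ((z b).2 : ℕ))

/-- Kronecker product -/
noncomputable def kr (g : Matrix (Fin m) (Fin m) ℂ) (h : Matrix (Fin n) (Fin n) ℂ) :
    Matrix (Fin m × Fin n) (Fin m × Fin n) ℂ := Matrix.kroneckerMap (· * ·) g h

lemma kr_mul (g g' : Matrix (Fin m) (Fin m) ℂ) (h h' : Matrix (Fin n) (Fin n) ℂ) :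
    kr g h * kr g' h' = kr (g * g') (h * h') := (Matrix.mul_kronecker_mul g g' h h').symm

lemma kr_one : kr (1 : Matrix (Fin m) (Fin m) ℂ) (1 : Matrix (Fin n) (Fin n) ℂ) = 1 :=
  Matrix.one_kronecker_one

/-- antisymmetric vectors orthogonal to all Slater vectors of lower sets -/
def Good (ω : (Fin t → Fin m × Fin n) → ℂ) : Prop :=
  Alt ω ∧ ∀ e : Fin t → Fin m × Fin n, Enum e → ∀ g h, (rho (fun _ => kr g h) *ᵥ ω) e = 0

lemma Good.rho {ω : (Fin t → Fin m × Fin n) → ℂ} (hω : Good ω) (g : Matrix (Fin m) (Fin m) ℂ)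
    (h : Matrix (Fin n) (Fin n) ℂ) : Good (rho (fun _ => kr g h) *ᵥ ω) := by
  refine ⟨hω.1.rho _, fun e he g' h' => ?_⟩
  rw [Matrix.mulVec_mulVec, rho_mul]
  simp only [kr_mul]
  exact hω.2 e he _ _

lemma Good.sub {ω ω' : (Fin t → Fin m × Fin n) → ℂ} (hω : Good ω) (hω' : Good ω') :
    Good (ω - ω') := by
  refine ⟨fun σ z => ?_, fun e he g h => ?_⟩
  · simp only [Pi.sub_apply, hω.1 σ z, hω'.1 σ z]; ring
  · rw [Matrix.mulVec_sub, Pi.sub_apply, hω.2 e he, hω'.2 e he, sub_zero]

open Classical in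
/-- maximal height in the support -/
noncomputable def mh (ω : (Fin t → Fin m × Fin n) → ℂ) : ℕ :=
  (Finset.univ.filter fun z => ω z ≠ 0).sup hgt

lemma le_mh {ω : (Fin t → Fin m × Fin n) → ℂ} {z : Fin t → Fin m × Fin n} (h : ω z ≠ 0) :
    hgt z ≤ mh ω := by
  classical
  exact Finset.le_sup (f := hgt) (Finset.mem_filter.2 ⟨Finset.mem_univ _, h⟩)

lemma mh_lt {ω ω' : (Fin t → Fin m × Fin n) → ℂ} (hne : ω' ≠ 0)
    (h : ∀ z, ω' z ≠ 0 → ∃ w, ω w ≠ 0 ∧ hgt z < hgt w) : mh ω' < mh ω := by
  classical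
  obtain ⟨z₀, hz₀⟩ := Function.ne_iff.1 hne
  obtain ⟨w₀, hw₀, hlt₀⟩ := h z₀ hz₀
  have hpos : 0 < mh ω := lt_of_lt_of_le (by omega) (le_mh hw₀)
  refine (Finset.sup_lt_iff (f := hgt) hpos).2 ?_
  intro z hz
  obtain ⟨w, hw, hlt⟩ := h z (Finset.mem_filter.1 hz).2
  exact hlt.trans_le (le_mh hw)

/-- A minimal element is fixed by the raising operators. -/
lemma fixed {ω : (Fin t → Fin m × Fin n) → ℂ} (hω : Good ω)
    (hmin : ∀ ω' : (Fin t → Fin m × Fin n) → ℂ, Good ω' → ω' ≠ 0 → mh ω ≤ mh ω')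
    (g : Matrix (Fin m) (Fin m) ℂ) (h : Matrix (Fin n) (Fin n) ℂ)
    (hd : ∀ p q, kr g h p q ≠ 0 → p = q ∨ ((p.1 : ℕ) + p.2 < q.1 + q.2))
    (h1 : ∀ p, kr g h p p = 1) : rho (fun _ => kr g h) *ᵥ ω = ω := by
  by_contra hne
  have hne' : rho (fun _ => kr g h) *ᵥ ω - ω ≠ 0 := sub_ne_zero.2 hne
  have h2 := hmin _ ((hω.rho g h).sub hω) hne'
  refine absurd h2 (not_le.2 (mh_lt hne' fun z hz => ?_))
  by_contra hc
  push Not at hc
  apply hz
  rw [Pi.sub_apply, sub_eq_zero]
  simp only [Matrix.mulVec, dotProduct, rho_apply]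
  rw [Finset.sum_eq_single z]
  · rw [Finset.prod_eq_one fun b _ => h1 (z b), one_mul]
  · intro w _ hwz
    by_cases hω0 : ω w = 0
    · rw [hω0, mul_zero]
    · have hle := hc w hω0
      have : ∃ b, kr g h (z b) (w b) = 0 := by
        by_contra hcc
        push Not at hcc
        obtain ⟨b₀, hb₀⟩ := Function.ne_iff.1 hwz
        have : hgt z < hgt w := by
          unfold hgt
          refine Finset.sum_lt_sum (fun b _ => ?_) ⟨b₀, Finset.mem_univ _, ?_⟩
          · rcases hd _ _ (hcc b) with h | h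
            · rw [h]
            · exact h.le
          · rcases hd _ _ (hcc b₀) with h | h
            · exact absurd h.symm hb₀
            · exact h
        omega
      obtain ⟨b, hb⟩ := this
      rw [Finset.prod_eq_zero (Finset.mem_univ b) hb, zero_mul]
  · intro h; exact absurd (Finset.mem_univ _) h

/-- first consequence: rows -/
lemma raise1 {ω : (Fin t → Fin m × Fin n) → ℂ} (hω : Good ω)
    (hmin : ∀ ω' : (Fin t → Fin m × Fin n) → ℂ, Good ω' → ω' ≠ 0 → mh ω ≤ mh ω')
    {i i' : Fin m} (hii : i < i') (z : Fin t → Fin m × Fin n) :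
    ∑ s, (if (z s).1 = i then ω (Function.update z s (i', (z s).2)) else 0) = 0 := by
  have h1 : D (kr (Matrix.single i i' 1) (1 : Matrix (Fin n) (Fin n) ℂ)) *ᵥ ω = 0 := by
    refine D_zero _ _ fun ε => ?_
    have e1 : (1 + ε • kr (Matrix.single i i' 1) (1 : Matrix (Fin n) (Fin n) ℂ)) =
        kr (1 + ε • Matrix.single i i' (1 : ℂ)) (1 : Matrix (Fin n) (Fin n) ℂ) := by
      rw [← kr_one]
      ext p q
      unfold kr
      simp only [Matrix.add_apply, Matrix.smul_apply, Matrix.kroneckerMap_apply, smul_eq_mul]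
      ring
    rw [e1]
    refine fixed hω hmin _ _ (fun p q hpq => ?_) (fun p => ?_)
    · by_contra hc
      push Not at hc
      apply hpq
      unfold kr
      simp only [Matrix.kroneckerMap_apply, Matrix.add_apply, Matrix.smul_apply]
      by_cases h2 : p.2 = q.2
      · by_cases h3 : p.1 = q.1
        · exact absurd (Prod.ext h3 h2) hc.1
        · have : ¬ (i = p.1 ∧ i' = q.1) := by
            rintro ⟨rfl, rfl⟩
            have := hc.2
            have hlt : (p.1 : ℕ) < q.1 := hii
            have h4 : (p.2 : ℕ) = q.2 := by rw [h2]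
            omega
          rw [Matrix.one_apply_ne h3, Matrix.single_apply, if_neg this]
          simp
      · rw [Matrix.one_apply_ne h2, mul_zero]
    · unfold kr
      simp only [Matrix.kroneckerMap_apply, Matrix.add_apply, Matrix.smul_apply,
        Matrix.one_apply_eq]
      have : ¬ (i = p.1 ∧ i' = p.1) := by
        rintro ⟨rfl, h⟩; exact absurd h hii.ne'
      rw [Matrix.single_apply, if_neg this]
      simp
  have h2 := congrFun h1 z
  rw [D_mulVec] at h2
  rw [Pi.zero_apply] at h2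
  refine Eq.trans ?_ h2
  refine Finset.sum_congr rfl fun s _ => Eq.symm ?_
  rw [Finset.sum_eq_single (i', (z s).2)]
  · unfold kr
    simp only [Matrix.kroneckerMap_apply, Matrix.one_apply_eq, mul_one, Matrix.single_apply]
    by_cases h3 : (z s).1 = i
    · simp [h3]
    · have : ¬ (i = (z s).1 ∧ True) := by rintro ⟨h, _⟩; exact h3 h.symm
      simp [h3, Ne.symm h3]
  · intro p _ hp
    unfold kr
    simp only [Matrix.kroneckerMap_apply, Matrix.single_apply]
    by_cases h3 : (z s).2 = p.2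
    · have : ¬ (i = (z s).1 ∧ i' = p.1) := by
        rintro ⟨_, h⟩
        exact hp (Prod.ext h.symm h3.symm)
      rw [if_neg this]; simp
    · rw [Matrix.one_apply_ne h3]; simp
  · intro h; exact absurd (Finset.mem_univ _) h

/-- second consequence: columns -/
lemma raise2 {ω : (Fin t → Fin m × Fin n) → ℂ} (hω : Good ω)
    (hmin : ∀ ω' : (Fin t → Fin m × Fin n) → ℂ, Good ω' → ω' ≠ 0 → mh ω ≤ mh ω')
    {j j' : Fin n} (hjj : j < j') (z : Fin t → Fin m × Fin n) :
    ∑ s, (if (z s).2 = j then ω (Function.update z s ((z s).1, j')) else 0) = 0 := by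
  have h1 : D (kr (1 : Matrix (Fin m) (Fin m) ℂ) (Matrix.single j j' 1)) *ᵥ ω = 0 := by
    refine D_zero _ _ fun ε => ?_
    have e1 : (1 + ε • kr (1 : Matrix (Fin m) (Fin m) ℂ) (Matrix.single j j' 1)) =
        kr (1 : Matrix (Fin m) (Fin m) ℂ) (1 + ε • Matrix.single j j' (1 : ℂ)) := by
      rw [← kr_one]
      ext p q
      unfold kr
      simp only [Matrix.add_apply, Matrix.smul_apply, Matrix.kroneckerMap_apply, smul_eq_mul]
      ring
    rw [e1]
    refine fixed hω hmin _ _ (fun p q hpq => ?_) (fun p => ?_)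
    · by_contra hc
      push Not at hc
      apply hpq
      unfold kr
      simp only [Matrix.kroneckerMap_apply, Matrix.add_apply, Matrix.smul_apply]
      by_cases h2 : p.1 = q.1
      · by_cases h3 : p.2 = q.2
        · exact absurd (Prod.ext h2 h3) hc.1
        · have : ¬ (j = p.2 ∧ j' = q.2) := by
            rintro ⟨rfl, rfl⟩
            have := hc.2
            have hlt : (p.2 : ℕ) < q.2 := hjj
            have h4 : (p.1 : ℕ) = q.1 := by rw [h2]
            omega
          rw [Matrix.one_apply_ne h3, Matrix.single_apply, if_neg this]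
          simp
      · rw [Matrix.one_apply_ne h2, zero_mul]
    · unfold kr
      simp only [Matrix.kroneckerMap_apply, Matrix.add_apply, Matrix.smul_apply,
        Matrix.one_apply_eq]
      have : ¬ (j = p.2 ∧ j' = p.2) := by
        rintro ⟨rfl, h⟩; exact absurd h hjj.ne'
      rw [Matrix.single_apply, if_neg this]
      simp
  have h2 := congrFun h1 z
  rw [D_mulVec] at h2
  rw [Pi.zero_apply] at h2
  refine Eq.trans ?_ h2
  refine Finset.sum_congr rfl fun s _ => Eq.symm ?_
  rw [Finset.sum_eq_single ((z s).1, j')]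
  · unfold kr
    simp only [Matrix.kroneckerMap_apply, Matrix.one_apply_eq, one_mul, Matrix.single_apply]
    by_cases h3 : (z s).2 = j
    · simp [h3]
    · simp [h3, Ne.symm h3]
  · intro p _ hp
    unfold kr
    simp only [Matrix.kroneckerMap_apply, Matrix.single_apply]
    by_cases h3 : (z s).1 = p.1
    · have : ¬ (j = (z s).2 ∧ j' = p.2) := by
        rintro ⟨_, h⟩
        exact hp (Prod.ext h3.symm h.symm)
      rw [if_neg this]; simp
    · rw [Matrix.one_apply_ne h3]; simp
  · intro h; exact absurd (Finset.mem_univ _) h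

end grid

end Q170.KF
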