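import Pool.Agent.Q170.KF.Span

namespace Q170.KF

open Matrix

set_option linter.unusedSectionVars false
set_option linter.unusedVariables false

variable {m n t : ℕ}

/-- exchange of the first coordinates -/
def sw1 (s s' : Fin t) (z : Fin t → Fin m × Fin n) : Fin t → Fin m × Fin n :=
  fun b => if b = s then ((z s').1, (z s).2) else if b = s' then ((z s).1, (z s').2) else z b

/-- exchange of the second coordinates -/
def sw2 (s s' : Fin t) (z : Fin t → Fin m × Fin n) : Fin t → Fin m × Fin n :=
  fun b => if b = s then ((z s).1, (z s').2) else if b = s' then ((z s').1, (z s).2) else z b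

lemma sw1_comm {s s' : Fin t} (h : s ≠ s') (z : Fin t → Fin m × Fin n) : sw1 s s' z = sw1 s' s z := by
  funext b
  unfold sw1
  by_cases h1 : b = s
  · subst h1; simp [h]
  · by_cases h2 : b = s'
    · subst h2; simp [Ne.symm h]
    · simp [h1, h2]

lemma sw2_eq {ω : (Fin t → Fin m × Fin n) → ℂ} (hω : Alt ω) {s s' : Fin t} (h : s ≠ s')
    (z : Fin t → Fin m × Fin n) : ω (sw2 s s' z) = - ω (sw1 s s' z) := by
  have h1 := hω (Equiv.swap s s') (sw1 s s' z)
  have h2 : (fun b => sw1 s s' z (Equiv.swap s s' b)) = sw2 s s' z := by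
    funext b
    rw [Equiv.swap_apply_def]
    unfold sw1 sw2
    by_cases hb1 : b = s
    · subst hb1; simp [Ne.symm h]
    · by_cases hb2 : b = s'
      · subst hb2; simp [hb1]
      · simp [hb1, hb2]
  rw [h2, Equiv.Perm.sign_swap h] at h1
  rw [h1]; simp

lemma sum_lt_card {N : ℕ} (a : Fin N) (c : ℂ) (F : Fin N → ℂ) :
    ∑ i, (if i < a then (c + F i) else 0) = (a : ℕ) * c + ∑ i, (if i < a then F i else 0) := by
  have h1 : ∀ i, (if i < a then (c + F i) else 0) = (if i < a then c else 0) +
      (if i < a then F i else 0) := by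
    intro i; split_ifs <;> simp
  simp only [h1, Finset.sum_add_distrib]
  congr 1
  rw [← Finset.sum_filter, Finset.sum_const, nsmul_eq_mul]
  congr 2
  have : (Finset.univ.filter fun i : Fin N => i < a) = Finset.Iio a := by ext; simp
  rw [this, Fin.card_Iio]

lemma eq1 {ω : (Fin t → Fin m × Fin n) → ℂ}
    (hr : ∀ {i i' : Fin m}, i < i' → ∀ z : Fin t → Fin m × Fin n,
      ∑ s, (if (z s).1 = i then ω (Function.update z s (i', (z s).2)) else 0) = 0)
    (z : Fin t → Fin m × Fin n) :
    (∑ s, (((z s).1 : ℕ) : ℂ)) * ω z +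
      ∑ s, ∑ s', (if (z s').1 < (z s).1 then ω (sw1 s s' z) else 0) = 0 := by
  have key : ∀ s, (((z s).1 : ℕ) : ℂ) * ω z +
      ∑ s', (if (z s').1 < (z s).1 then ω (sw1 s s' z) else 0) = 0 := by
    intro s
    have h1 : ∀ i : Fin m, i < (z s).1 →
        ω z + ∑ s', (if (z s').1 = i then ω (sw1 s s' z) else 0) = 0 := by
      intro i hi
      have h2 := hr hi (Function.update z s (i, (z s).2))
      rw [← Finset.add_sum_erase Finset.univ _ (Finset.mem_univ s)] at h2
      simp only [Function.update_self, if_true, Function.update_idem] at h2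
      have h3 : Function.update z s ((z s).1, (z s).2) = z := by
        rw [Prod.mk.eta, Function.update_eq_self]
      rw [h3] at h2
      refine Eq.trans ?_ h2
      congr 1
      rw [← Finset.add_sum_erase Finset.univ _ (Finset.mem_univ s)]
      have h4 : (if (z s).1 = i then ω (sw1 s s z) else 0) = 0 := if_neg hi.ne'
      rw [h4, zero_add]
      refine Finset.sum_congr rfl fun s' hs' => ?_
      have hne : s' ≠ s := Finset.ne_of_mem_erase hs'
      rw [Function.update_of_ne hne]
      by_cases h5 : (z s').1 = i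
      · rw [if_pos h5, if_pos h5]
        congr 1
        funext b
        unfold sw1
        by_cases hb : b = s
        · subst hb
          rw [if_pos rfl, Function.update_of_ne (Ne.symm hne), Function.update_self, h5]
        · by_cases hb' : b = s'
          · subst hb'
            rw [if_neg hb, if_pos rfl, Function.update_self]
          · rw [if_neg hb, if_neg hb', Function.update_of_ne hb', Function.update_of_ne hb]
      · rw [if_neg h5, if_neg h5]
    have h2 := sum_lt_card (z s).1 (ω z) (fun i => ∑ s', (if (z s').1 = i then ω (sw1 s s' z) else 0))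
    have h3 : ∑ i, (if i < (z s).1 then (ω z + ∑ s', (if (z s').1 = i then ω (sw1 s s' z) else 0))
        else 0) = 0 := by
      refine Finset.sum_eq_zero fun i _ => ?_
      split_ifs with h
      · exact h1 i h
      · rfl
    rw [h3] at h2
    refine Eq.trans ?_ h2.symm
    congr 1
    have h4 : ∀ i : Fin m, (if i < (z s).1 then ∑ s', (if (z s').1 = i then ω (sw1 s s' z) else 0)
        else 0) = ∑ s', (if (z s').1 = i then (if (z s').1 < (z s).1 then ω (sw1 s s' z) else 0)
          else 0) := by
      intro i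
      split_ifs with h
      · refine Finset.sum_congr rfl fun s' _ => ?_
        by_cases h5 : (z s').1 = i
        · rw [if_pos h5, if_pos h5, if_pos (h5 ▸ h)]
        · rw [if_neg h5, if_neg h5]
      · symm
        refine Finset.sum_eq_zero fun s' _ => ?_
        by_cases h5 : (z s').1 = i
        · rw [if_pos h5, if_neg (h5 ▸ h)]
        · rw [if_neg h5]
    simp only [h4]
    rw [Finset.sum_comm]
    refine Finset.sum_congr rfl fun s' _ => ?_
    rw [Finset.sum_ite_eq]
    simp
  rw [Finset.sum_mul, ← Finset.sum_add_distrib]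
  exact Finset.sum_eq_zero fun s _ => key s

lemma eq2 {ω : (Fin t → Fin m × Fin n) → ℂ}
    (hr : ∀ {j j' : Fin n}, j < j' → ∀ z : Fin t → Fin m × Fin n,
      ∑ s, (if (z s).2 = j then ω (Function.update z s ((z s).1, j')) else 0) = 0)
    (z : Fin t → Fin m × Fin n) :
    (∑ s, (((z s).2 : ℕ) : ℂ)) * ω z +
      ∑ s, ∑ s', (if (z s').2 < (z s).2 then ω (sw2 s s' z) else 0) = 0 := by
  have key : ∀ s, (((z s).2 : ℕ) : ℂ) * ω z +
      ∑ s', (if (z s').2 < (z s).2 then ω (sw2 s s' z) else 0) = 0 := by
    intro s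
    have h1 : ∀ i : Fin n, i < (z s).2 →
        ω z + ∑ s', (if (z s').2 = i then ω (sw2 s s' z) else 0) = 0 := by
      intro i hi
      have h2 := hr hi (Function.update z s ((z s).1, i))
      rw [← Finset.add_sum_erase Finset.univ _ (Finset.mem_univ s)] at h2
      simp only [Function.update_self, if_true, Function.update_idem] at h2
      have h3 : Function.update z s ((z s).1, (z s).2) = z := by
        rw [Prod.mk.eta, Function.update_eq_self]
      rw [h3] at h2
      refine Eq.trans ?_ h2
      congr 1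
      rw [← Finset.add_sum_erase Finset.univ _ (Finset.mem_univ s)]
      have h4 : (if (z s).2 = i then ω (sw2 s s z) else 0) = 0 := if_neg hi.ne'
      rw [h4, zero_add]
      refine Finset.sum_congr rfl fun s' hs' => ?_
      have hne : s' ≠ s := Finset.ne_of_mem_erase hs'
      rw [Function.update_of_ne hne]
      by_cases h5 : (z s').2 = i
      · rw [if_pos h5, if_pos h5]
        congr 1
        funext b
        unfold sw2
        by_cases hb : b = s
        · subst hb
          rw [if_pos rfl, Function.update_of_ne (Ne.symm hne), Function.update_self, h5]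
        · by_cases hb' : b = s'
          · subst hb'
            rw [if_neg hb, if_pos rfl, Function.update_self]
          · rw [if_neg hb, if_neg hb', Function.update_of_ne hb', Function.update_of_ne hb]
      · rw [if_neg h5, if_neg h5]
    have h2 := sum_lt_card (z s).2 (ω z) (fun i => ∑ s', (if (z s').2 = i then ω (sw2 s s' z) else 0))
    have h3 : ∑ i, (if i < (z s).2 then (ω z + ∑ s', (if (z s').2 = i then ω (sw2 s s' z) else 0))
        else 0) = 0 := by
      refine Finset.sum_eq_zero fun i _ => ?_
      split_ifs with h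
      · exact h1 i h
      · rfl
    rw [h3] at h2
    refine Eq.trans ?_ h2.symm
    congr 1
    have h4 : ∀ i : Fin n, (if i < (z s).2 then ∑ s', (if (z s').2 = i then ω (sw2 s s' z) else 0)
        else 0) = ∑ s', (if (z s').2 = i then (if (z s').2 < (z s).2 then ω (sw2 s s' z) else 0)
          else 0) := by
      intro i
      split_ifs with h
      · refine Finset.sum_congr rfl fun s' _ => ?_
        by_cases h5 : (z s').2 = i
        · rw [if_pos h5, if_pos h5, if_pos (h5 ▸ h)]
        · rw [if_neg h5, if_neg h5]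
      · symm
        refine Finset.sum_eq_zero fun s' _ => ?_
        by_cases h5 : (z s').2 = i
        · rw [if_pos h5, if_neg (h5 ▸ h)]
        · rw [if_neg h5]
    simp only [h4]
    rw [Finset.sum_comm]
    refine Finset.sum_congr rfl fun s' _ => ?_
    rw [Finset.sum_ite_eq]
    simp
  rw [Finset.sum_mul, ← Finset.sum_add_distrib]
  exact Finset.sum_eq_zero fun s _ => key s

/-- pairs in the same column, resp. row, in increasing order -/
def uu (z : Fin t → Fin m × Fin n) (s s' : Fin t) : ℕ :=
  if (z s').2 = (z s).2 ∧ (z s').1 < (z s).1 then 1 else 0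

def vv (z : Fin t → Fin m × Fin n) (s s' : Fin t) : ℕ :=
  if (z s').1 = (z s).1 ∧ (z s').2 < (z s).2 then 1 else 0

lemma sw1_same {s s' : Fin t} {z : Fin t → Fin m × Fin n} (h : (z s').1 = (z s).1) :
    sw1 s s' z = z := by
  funext b
  unfold sw1
  by_cases hb : b = s
  · subst hb; rw [if_pos rfl, h]
  · by_cases hb' : b = s'
    · subst hb'; rw [if_neg hb, if_pos rfl, ← h]
    · rw [if_neg hb, if_neg hb']

lemma sw2_same {s s' : Fin t} {z : Fin t → Fin m × Fin n} (h : (z s').2 = (z s).2) :
    sw2 s s' z = z := by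
  funext b
  unfold sw2
  by_cases hb : b = s
  · subst hb; rw [if_pos rfl, h]
  · by_cases hb' : b = s'
    · subst hb'; rw [if_neg hb, if_pos rfl, ← h]
    · rw [if_neg hb, if_neg hb']

lemma height_identity {ω : (Fin t → Fin m × Fin n) → ℂ} (hω : Alt ω)
    (hr1 : ∀ {i i' : Fin m}, i < i' → ∀ z : Fin t → Fin m × Fin n,
      ∑ s, (if (z s).1 = i then ω (Function.update z s (i', (z s).2)) else 0) = 0)
    (hr2 : ∀ {j j' : Fin n}, j < j' → ∀ z : Fin t → Fin m × Fin n,
      ∑ s, (if (z s).2 = j then ω (Function.update z s ((z s).1, j')) else 0) = 0)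
    (z : Fin t → Fin m × Fin n) (hz : ω z ≠ 0) :
    hgt z = ∑ s, ∑ s', (uu z s s' + vv z s s') := by
  have hinj : Function.Injective z := by
    intro a b hab
    by_contra hne
    exact hz (hω.zero_of hne hab)
  have e1 := eq1 hr1 z
  have e2 := eq2 hr2 z
  -- the symmetrised sum
  set A : Fin t → Fin t → ℂ := fun s s' =>
    (if (z s').1 < (z s).1 then ω (sw1 s s' z) else 0) +
      (if (z s').2 < (z s).2 then ω (sw2 s s' z) else 0) with hA
  have h1 : ∀ s s', A s s' + A s' s = - (((uu z s s' + vv z s s' + (uu z s' s + vv z s' s) : ℕ) : ℂ) * ω z) := by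
    intro s s'
    simp only [hA]
    by_cases hs : s = s'
    · subst hs
      simp [uu, vv]
    · have hsw2 := sw2_eq hω hs z
      have hsw2' := sw2_eq hω (Ne.symm hs) z
      have hsw1 := sw1_comm hs z
      unfold uu vv
      rcases lt_trichotomy (z s').1 (z s).1 with h | h | h
      · rcases lt_trichotomy (z s').2 (z s).2 with h' | h' | h'
        · simp [h, h', h.not_gt, h'.not_gt, h.ne, h'.ne, h.ne', h'.ne', hsw2]
        · have hsame := sw2_same (s := s) (s' := s') (z := z) h'
          rw [hsame] at hsw2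
          simp [h, h', h.not_gt, h.ne, h.ne']
          linear_combination hsw2
        · simp [h, h', h.not_gt, h'.not_gt, h.ne, h'.ne, h.ne', h'.ne', hsw2', hsw1]
      · have hsame := sw1_same (s := s) (s' := s') (z := z) h
        have hsame' := sw1_same (s := s') (s' := s) (z := z) h.symm
        rw [hsame] at hsw2
        rw [hsame'] at hsw2'
        rcases lt_trichotomy (z s').2 (z s).2 with h' | h' | h'
        · simp [h, h', h'.not_gt, h'.ne, h'.ne', hsw2]
        · exact absurd (hinj (Prod.ext h.symm h'.symm)) hs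
        · simp [h, h', h'.not_gt, h'.ne, h'.ne', hsw2']
      · rcases lt_trichotomy (z s').2 (z s).2 with h' | h' | h'
        · simp [h, h', h.not_gt, h'.not_gt, h.ne, h'.ne, h.ne', h'.ne', hsw2, hsw1]
        · have hsame := sw2_same (s := s') (s' := s) (z := z) h'.symm
          rw [hsame] at hsw2'
          simp [h, h', h.not_gt, h.ne, h.ne']
          linear_combination hsw2'
        · simp [h, h', h.not_gt, h'.not_gt, h.ne, h'.ne, h.ne', h'.ne', hsw2']
  have h2 : ∑ s, ∑ s', A s s' = ∑ s, ∑ s', A s' s := Finset.sum_comm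
  have h3 : ∑ s, ∑ s', (A s s' + A s' s) =
      - ((∑ s, ∑ s', ((uu z s s' + vv z s s' + (uu z s' s + vv z s' s) : ℕ) : ℂ)) * ω z) := by
    simp only [h1, Finset.sum_neg_distrib, Finset.sum_mul]
  have h4 : ∑ s, ∑ s', ((uu z s s' + vv z s s' + (uu z s' s + vv z s' s) : ℕ) : ℂ) =
      2 * ((∑ s, ∑ s', (uu z s s' + vv z s s') : ℕ) : ℂ) := by
    have h5 : ∑ s, ∑ s', (uu z s' s + vv z s' s) = ∑ s, ∑ s', (uu z s s' + vv z s s') :=
      Finset.sum_comm
    have h6 : ∑ s, ∑ s', (uu z s s' + vv z s s' + (uu z s' s + vv z s' s)) =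
        2 * ∑ s, ∑ s', (uu z s s' + vv z s s') := by
      simp only [Finset.sum_add_distrib] at h5 ⊢
      omega
    have h7 := congrArg (Nat.cast : ℕ → ℂ) h6
    push_cast at h7 ⊢
    exact h7
  have h8 : ∑ s, ∑ s', (A s s' + A s' s) = 2 * ∑ s, ∑ s', A s s' := by
    simp only [Finset.sum_add_distrib]
    rw [← h2]; ring
  have h9 : ∑ s, ∑ s', A s s' = - ((hgt z : ℕ) : ℂ) * ω z := by
    have h10 : ((hgt z : ℕ) : ℂ) = (∑ s, (((z s).1 : ℕ) : ℂ)) + ∑ s, (((z s).2 : ℕ) : ℂ) := by
      unfold hgt
      push_cast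
      rw [Finset.sum_add_distrib]
    have h11 : ∑ s, ∑ s', A s s' = (∑ s, ∑ s', (if (z s').1 < (z s).1 then ω (sw1 s s' z) else 0)) +
        ∑ s, ∑ s', (if (z s').2 < (z s).2 then ω (sw2 s s' z) else 0) := by
      simp only [hA, Finset.sum_add_distrib]
    rw [h11, h10]
    linear_combination e1 + e2
  rw [h8, h9, h4] at h3
  have h12 : (((hgt z : ℕ) : ℂ) - ((∑ s, ∑ s', (uu z s s' + vv z s s') : ℕ) : ℂ)) * ω z = 0 := by
    linear_combination (-1 / 2) * h3
  rcases mul_eq_zero.1 h12 with h | h
  · exact_mod_cast sub_eq_zero.1 h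
  · exact absurd h hz

lemma enum_of_height {z : Fin t → Fin m × Fin n} (hinj : Function.Injective z)
    (h : hgt z = ∑ s, ∑ s', (uu z s s' + vv z s s')) : Enum z := by
  classical
  have ha : ∀ s, ∑ s', uu z s s' ≤ (z s).1 := by
    intro s
    unfold uu
    rw [← Finset.card_filter]
    have h1 : (Finset.univ.filter fun s' => (z s').2 = (z s).2 ∧ (z s').1 < (z s).1).card ≤
        (Finset.Iio (z s).1).card := by
      refine Finset.card_le_card_of_injOn (fun s' => (z s').1) (fun s' hs' => ?_) ?_
      · have := (Finset.mem_filter.1 hs').2.2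
        simpa using this
      · intro s' hs' s'' hs'' heq
        have h2 := (Finset.mem_filter.1 hs').2.1
        have h3 := (Finset.mem_filter.1 hs'').2.1
        exact hinj (Prod.ext heq (h2.trans h3.symm))
    rwa [Fin.card_Iio] at h1
  have hb : ∀ s, ∑ s', vv z s s' ≤ (z s).2 := by
    intro s
    unfold vv
    rw [← Finset.card_filter]
    have h1 : (Finset.univ.filter fun s' => (z s').1 = (z s).1 ∧ (z s').2 < (z s).2).card ≤
        (Finset.Iio (z s).2).card := by
      refine Finset.card_le_card_of_injOn (fun s' => (z s').2) (fun s' hs' => ?_) ?_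
      · have := (Finset.mem_filter.1 hs').2.2
        simpa using this
      · intro s' hs' s'' hs'' heq
        have h2 := (Finset.mem_filter.1 hs').2.1
        have h3 := (Finset.mem_filter.1 hs'').2.1
        exact hinj (Prod.ext (h2.trans h3.symm) heq)
    rwa [Fin.card_Iio] at h1
  unfold hgt at h
  have hle : ∀ s ∈ (Finset.univ : Finset (Fin t)),
      ∑ s', (uu z s s' + vv z s s') ≤ ((z s).1 : ℕ) + (z s).2 := by
    intro s _
    rw [Finset.sum_add_distrib]
    exact add_le_add (ha s) (hb s)
  have heq := (Finset.sum_eq_sum_iff_of_le hle).1 h.symm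
  have ha' : ∀ s, ∑ s', uu z s s' = (z s).1 := by
    intro s
    have h1 := heq s (Finset.mem_univ s)
    rw [Finset.sum_add_distrib] at h1
    have := ha s
    have := hb s
    omega
  have hb' : ∀ s, ∑ s', vv z s s' = (z s).2 := by
    intro s
    have h1 := heq s (Finset.mem_univ s)
    rw [Finset.sum_add_distrib] at h1
    have := ha s
    have := hb s
    omega
  -- surjectivity
  have hA : ∀ s, ∀ i < (z s).1, ∃ s', z s' = (i, (z s).2) := by
    intro s i hi
    have h1 := ha' s
    unfold uu at h1
    rw [← Finset.card_filter] at h1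
    have h2 : ((Finset.univ.filter fun s' => (z s').2 = (z s).2 ∧ (z s').1 < (z s).1).image
        fun s' => (z s').1) = Finset.Iio (z s).1 := by
      refine Finset.eq_of_subset_of_card_le ?_ ?_
      · intro x hx
        obtain ⟨s', hs', rfl⟩ := Finset.mem_image.1 hx
        have := (Finset.mem_filter.1 hs').2.2
        simpa using this
      · rw [Fin.card_Iio, Finset.card_image_of_injOn, h1]
        intro s' hs' s'' hs'' heq
        have h2 := (Finset.mem_filter.1 hs').2.1
        have h3 := (Finset.mem_filter.1 hs'').2.1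
        exact hinj (Prod.ext heq (h2.trans h3.symm))
    have h3 : i ∈ Finset.Iio (z s).1 := by simpa using hi
    rw [← h2] at h3
    obtain ⟨s', hs', rfl⟩ := Finset.mem_image.1 h3
    exact ⟨s', Prod.ext rfl (Finset.mem_filter.1 hs').2.1⟩
  have hB : ∀ s, ∀ j < (z s).2, ∃ s', z s' = ((z s).1, j) := by
    intro s j hj
    have h1 := hb' s
    unfold vv at h1
    rw [← Finset.card_filter] at h1
    have h2 : ((Finset.univ.filter fun s' => (z s').1 = (z s).1 ∧ (z s').2 < (z s).2).image
        fun s' => (z s').2) = Finset.Iio (z s).2 := by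
      refine Finset.eq_of_subset_of_card_le ?_ ?_
      · intro x hx
        obtain ⟨s', hs', rfl⟩ := Finset.mem_image.1 hx
        have := (Finset.mem_filter.1 hs').2.2
        simpa using this
      · rw [Fin.card_Iio, Finset.card_image_of_injOn, h1]
        intro s' hs' s'' hs'' heq
        have h2 := (Finset.mem_filter.1 hs').2.1
        have h3 := (Finset.mem_filter.1 hs'').2.1
        exact hinj (Prod.ext (h2.trans h3.symm) heq)
    have h3 : j ∈ Finset.Iio (z s).2 := by simpa using hj
    rw [← h2] at h3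
    obtain ⟨s', hs', rfl⟩ := Finset.mem_image.1 h3
    exact ⟨s', Prod.ext (Finset.mem_filter.1 hs').2.1 rfl⟩
  refine ⟨hinj, fun a x hx => ?_⟩
  have h1 : ∃ s', z s' = (x.1, (z a).2) := by
    rcases lt_or_eq_of_le hx.1 with h | h
    · exact hA a _ h
    · exact ⟨a, Prod.ext h.symm rfl⟩
  obtain ⟨s', hs'⟩ := h1
  have h2 : x.2 ≤ (z s').2 := by rw [hs']; exact hx.2
  rcases lt_or_eq_of_le h2 with h | h
  · obtain ⟨s'', hs''⟩ := hB s' _ h
    refine ⟨s'', ?_⟩
    rw [hs'', hs']
  · refine ⟨s', ?_⟩
    rw [hs'] at h ⊢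
    exact Prod.ext rfl h.symm

/-- The Slater vectors of lower sets span the antisymmetric vectors. -/
theorem good_zero {ω : (Fin t → Fin m × Fin n) → ℂ} (hω : Good ω) : ω = 0 := by
  classical
  by_contra hne
  -- a nonzero good vector with minimal height
  have hex : ∃ k, ∃ ω : (Fin t → Fin m × Fin n) → ℂ, Good ω ∧ ω ≠ 0 ∧ mh ω = k :=
    ⟨_, ω, hω, hne, rfl⟩
  obtain ⟨ω', hω', hne', hk⟩ := Nat.find_spec hex
  have hmin : ∀ ω'' : (Fin t → Fin m × Fin n) → ℂ, Good ω'' → ω'' ≠ 0 → mh ω' ≤ mh ω'' := by
    intro ω'' h1 h2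
    rw [hk]
    exact Nat.find_min' hex ⟨ω'', h1, h2, rfl⟩
  obtain ⟨z, hz⟩ := Function.ne_iff.1 hne'
  have hinj : Function.Injective z := by
    intro a b hab
    by_contra hc
    exact hz (hω'.1.zero_of hc hab)
  have h1 := height_identity hω'.1 (fun hii z => raise1 hω' hmin hii z)
    (fun hjj z => raise2 hω' hmin hjj z) z hz
  have h2 := enum_of_height hinj h1
  have h3 := hω'.2 z h2 1 1
  rw [kr_one, rho_one, Matrix.one_mulVec] at h3
  exact hz h3

end Q170.KF
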